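import Pool.Agent.Run7.h552.SF.Sml
import Pool.Agent.Run7.h552.CT.App
import Pool.Agent.Run7.h552.NA.Ent

/-!
# Application to multilinear maps with values in an algebra
-/

set_option autoImplicit false
set_option linter.unusedSectionVars false

namespace Run7.h552.SF

open Module Finset Function Pool.Agent.TH118.SG Pool.Agent.TH125.Gal Pool.Agent.Y127.G
  Pool.Agent.Y127.C Pool.Agent.Y95.ZT Run7.h552.CT

noncomputable section

variable {K : Type} [Field K] [CharZero K] {Γ : Type} [Group Γ]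

/-- The local conditions: slopes, weights, or unipotent elements. -/
def BigLoc (M : FRep K Γ) : Prop :=
  (∃ (v : Additive Kˣ →+ ℚ) (F : Γ), WType M (slopes v (M.ρ F))) ∨
  (∃ (D : WeightOp K Γ) (s : Multiset ℤ), HasWeights (D.Θ M) s ∧
    WType M (s.map fun z : ℤ => (z : ℚ))) ∨
  Pool.Agent.V11219.Gk.SmallDefects M.ρ (quad M)

/-- A representation of symplectic type: an alternating form which is invariant up to a character,
strongly irreducible, with one of the local conditions. -/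
structure SRep (M : FRep K Γ) where
  B : M.V →ₗ[K] M.V →ₗ[K] K
  μ : Γ →* Kˣ
  eqv : ∀ g x y, B (M.ρ g x) (M.ρ g y) = (μ g : K) * B x y
  sy : ∀ x y, B x y = -B y x
  nd : ∀ x, (∀ y, B x y = 0) → x = 0
  si : SI M.ρ
  loc : BigLoc M

/-- The representation `M` is small with respect to `T`, by a local condition. -/
def SmallLoc (T M : FRep K Γ) : Prop :=
  (∃ (v : Additive Kˣ →+ ℚ) (F : Γ) (δ : ℚ),
    2 * gaps (slopes v (M.ρ F)) δ < gaps (slopes v (T.ρ F)) δ) ∨
  (∃ (D : WeightOp K Γ) (s s' : Multiset ℤ) (δ : ℚ), HasWeights (D.Θ T) s ∧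
    HasWeights (D.Θ M) s' ∧
    2 * gaps (s'.map fun z : ℤ => (z : ℚ)) δ < gaps (s.map fun z : ℤ => (z : ℚ)) δ) ∨
  (∃ g ∈ quad T, g ∈ quad M ∧
    2 * finrank K (LinearMap.range (M.ρ g - 1 : Module.End K M.V)) ^ 2 <
      finrank K (LinearMap.range (T.ρ g - 1 : Module.End K T.V)) *
        (finrank K (LinearMap.range (T.ρ g - 1 : Module.End K T.V)) + 1)) ∨
  ¬NA.Ent T M

/-- The representation `M` is small with respect to `T`. -/
def SmallRel (T M : FRep K Γ) : Prop :=
  SmallLoc T M ∨ (HasForm 1 M ∧ finrank K M.V ≤ finrank K T.V) ∨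
  (HasForm (-1) M ∧ finrank K M.V < finrank K T.V) ∨
  (2 * finrank K M.V ^ 2 < finrank K T.V * (finrank K T.V + 1))

section

variable [IsAlgClosed K] {ι : Type} {N : ι → FRep K Γ} {t : ι}

theorem exists_FulS_loc (fr : Frm N t) (sy : ∀ x y, fr.B x y = -fr.B y x)
    (nd : ∀ x, (∀ y, fr.B x y = 0) → x = 0) (si : SI (N t).ρ) (h : BigLoc (N t)) :
    ∃ o : FulS N t, o.toFrm = fr := by
  rcases h with ⟨v, F, h⟩ | ⟨D, s, hs, h⟩ | h
  · obtain ⟨J, hJG, hJ⟩ := exists_GG N (toK v) F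
    obtain ⟨κ, hκ, b, g, hb, hg⟩ := exists_slope_basis v ((N t).ρ F) (hJ t)
    exact exists_FulS_wt fr sy nd si hJG ⟨κ, hκ, b, g, hb, hg⟩ h
  · exact exists_FulS_wt fr sy nd si (D.mem N) (HasWt.of_int hs) h
  · exact exists_FulS_quad fr sy nd si h

theorem good_of_loc (o : FulS N t) {a : ι} (h : SmallLoc (N t) (N a)) : Good N t a := by
  rcases h with ⟨v, F, δ, h⟩ | ⟨D, s, s', δ, hs, hs', h⟩ | ⟨g, hg, hga, h⟩ | h
  · obtain ⟨J, hJG, hJ⟩ := exists_GG N (toK v) F
    obtain ⟨κ, hκ, b, g, hb, hg⟩ := exists_slope_basis v ((N t).ρ F) (hJ t)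
    obtain ⟨κ', hκ', b', g', hb', hg'⟩ := exists_slope_basis v ((N a).ρ F) (hJ a)
    exact good_of_gapQ o hJG ⟨κ, hκ, b, g, hb, hg⟩ ⟨κ', hκ', b', g', hb', hg'⟩ h
  · exact good_of_gapQ o (D.mem N) (HasWt.of_int hs) (HasWt.of_int hs') h
  · exact good_of_quad o hg hga h
  · exact NA.good_of_not_entS o h

end

variable {A : Type} [Ring A] [Algebra K A] [FiniteDimensional K A] [IsAlgClosed K]

/-- **The main application.** -/
theorem kill_of_data {ι : Type} {m : ℕ} {T : ι → FRep K Γ} {M : Fin m → FRep K Γ}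
    {χ : Γ →* Kˣ} {τ : Γ →* (A ≃ₐ[K] A)} {S : Set ι} (hS : S.Finite) (hgen : GenBy T M χ τ S)
    (hT : ∀ j, SRep (T j))
    (hiso : ∀ i j, i ≠ j → ¬IsoUpTo (T i) (T j)) {i : ι} (hi : i ∉ S)
    (hM : ∀ a, SmallRel (T i) (M a)) (lam : Γ →* Kˣ)
    {R : Type} [Fintype R] [DecidableEq R]
    {h : MultilinearMap K (fun _ : R => (T i).V) A} (hh : Eqv (T i).ρ (algRep lam τ).ρ h)
    (x y : (T i).V) : Kill (oo (hT i).B (-1) x y) h := by
  classical
  -- the characters of the forms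
  have hκ : ∀ a, ∃ κ : Γ →* Kˣ, SmallLoc (T i) (M a) ∨
      (∃ B : (M a).V →ₗ[K] (M a).V →ₗ[K] K, (∀ x y, B x y = (1 : K) * B y x) ∧
        (∀ x, (∀ y, B x y = 0) → x = 0) ∧
        (∀ g x y, B ((M a).ρ g x) ((M a).ρ g y) = (κ g : K) * B x y) ∧
        finrank K (M a).V ≤ finrank K (T i).V) ∨
      (∃ B : (M a).V →ₗ[K] (M a).V →ₗ[K] K, (∀ x y, B x y = (-1 : K) * B y x) ∧
        (∀ x, (∀ y, B x y = 0) → x = 0) ∧
        (∀ g x y, B ((M a).ρ g x) ((M a).ρ g y) = (κ g : K) * B x y) ∧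
        finrank K (M a).V < finrank K (T i).V) ∨
      (2 * finrank K (M a).V ^ 2 < finrank K (T i).V * (finrank K (T i).V + 1)) := by
    intro a
    rcases hM a with h1 | ⟨⟨μ, B, h1, h2, h3⟩, h4⟩ | ⟨⟨μ, B, h1, h2, h3⟩, h4⟩ | h1
    · exact ⟨1, Or.inl h1⟩
    · exact ⟨μ, Or.inr (Or.inl ⟨B, h1, h2, h3, h4⟩)⟩
    · exact ⟨μ, Or.inr (Or.inr (Or.inl ⟨B, h1, h2, h3, h4⟩))⟩
    · exact ⟨1, Or.inr (Or.inr (Or.inr h1))⟩
  choose κ hκ using hκ
  let N : Ix ι m → FRep K Γ := fam T M (fun j => (hT j).μ) κ χ lam τ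
  -- the members of symplectic type
  have hfr : ∀ j, ∃ o : FulS N (Ix.t j), o.B = (hT j).B := by
    intro j
    let fr : Frm N (Ix.t j) := ⟨(hT j).B, fun g => ((hT j).μ g : K), (hT j).eqv, Ix.mu j,
      line_finrank _, fun g x => rfl⟩
    obtain ⟨o, ho1⟩ := exists_FulS_loc (N := N) (t := Ix.t j) fr (hT j).sy (hT j).nd
      (hT j).si (hT j).loc
    exact ⟨o, by rw [ho1]⟩
  choose o hoB using hfr
  have hgoodT : ∀ j, j ≠ i → Good N (Ix.t i) (Ix.t j) := fun j hj =>
    good_of_not_isoS (o i) (o j) (hiso j i hj)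
  have hgoodM : ∀ a, Good N (Ix.t i) (Ix.pc a) := by
    intro a
    rcases hκ a with h1 | ⟨B, h1, h2, h3, h4⟩ | ⟨B, h1, h2, h3, h4⟩ | h1
    · exact good_of_loc (N := N) (t := Ix.t i) (o i) (a := Ix.pc a) h1
    · refine (o i).good_of_sym (a := Ix.pc a) ⟨B, fun g => (κ a g : K), h3, Ix.cf a,
        line_finrank _, fun g x => rfl⟩ (fun x y => (h1 x y).trans (one_mul _)) h2 h4
    · refine (o i).good_of_alt (a := Ix.pc a) ⟨B, fun g => (κ a g : K), h3, Ix.cf a,
        line_finrank _, fun g x => rfl⟩ (fun x y => (h1 x y).trans (neg_one_mul _)) h2 h4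
    · refine (o i).good_of_sq (a := Ix.pc a) ?_
      have h2 := Finset.sum_range_id_mul_two (finrank K (N (Ix.t i)).V + 1)
      rw [Nat.add_sub_cancel] at h2
      change 2 * finrank K (N (Ix.pc a)).V ^ 2 <
        finrank K (N (Ix.t i)).V * (finrank K (N (Ix.t i)).V + 1) at h1
      have h3 : (finrank K (N (Ix.t i)).V + 1) * finrank K (N (Ix.t i)).V =
        finrank K (N (Ix.t i)).V * (finrank K (N (Ix.t i)).V + 1) := mul_comm _ _
      omega
  -- an operator which kills the other members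
  obtain ⟨D, hD, hD0, hDt⟩ := (o i).good_finset
    (hS.toFinset.image Ix.t ∪ (univ : Finset (Fin m)).image Ix.pc) (by
      intro a ha
      rcases Finset.mem_union.1 ha with ha | ha
      · obtain ⟨j, hj, rfl⟩ := Finset.mem_image.1 ha
        exact hgoodT j fun h => hi (h ▸ (hS.mem_toFinset.1 hj))
      · obtain ⟨a, -, rfl⟩ := Finset.mem_image.1 ha
        exact hgoodM a) x y
  have hDG := GG1_le hD
  have hDT : ∀ j ∈ S, D (Ix.t j) = 0 := fun j hj => hD0 _ (Finset.mem_union_left _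
    (Finset.mem_image.2 ⟨j, hS.mem_toFinset.2 hj, rfl⟩))
  have hDM : ∀ a, D (Ix.pc a) = 0 := fun a => hD0 _ (Finset.mem_union_right _
    (Finset.mem_image.2 ⟨a, Finset.mem_univ _, rfl⟩))
  have hDl : D Ix.lam = 0 := GG1_line hD (line_finrank _).le
  have hDc : ∀ n, D (Ix.chi n) = 0 := fun n => GG1_line hD (line_finrank _).le
  -- the derivation of the algebra
  let E : A →ₗ[K] A := D Ix.alg
  have hE : ∀ a b : A, E (a * b) = E a * b + a * E b := by
    intro a b
    have h1 : ∀ (g : Γ) (x y : A), (((1 : Γ →* Kˣ) g : K) • τ g x) *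
        (((1 : Γ →* Kˣ) g : K) • τ g y) = ((1 : Γ →* Kˣ) g : K) • τ g (x * y) := by
      intro g x y
      simp
    exact (bil_der (N := N) (a := Ix.alg) (b := Ix.alg) (c := Ix.alg) (LinearMap.mul K A)
      (Δ := ⊤) inferInstance (fun g _ x y => h1 g x y) hDG a b).symm
  have hE1 : E 1 = 0 := by
    have h1 := hE 1 1
    rw [mul_one, mul_one, one_mul] at h1
    exact left_eq_add.1 h1
  have hE0 : ∀ a : A, E a = 0 := by
    intro a
    have ha : a ∈ Algebra.adjoin K (SemiInv χ τ ∪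
      ({x | ∃ j ∈ S, ∃ f : (T j).V →ₗ[K] A, (∀ g y, f ((T j).ρ g y) = τ g (f y)) ∧ ∃ y, f y = x} ∪
       {x | ∃ a, ∃ f : (M a).V →ₗ[K] A, (∀ g y, f ((M a).ρ g y) = τ g (f y)) ∧ ∃ y, f y = x})) := by
      rw [hgen]
      exact Algebra.mem_top
    induction ha using Algebra.adjoin_induction with
    | mem a ha =>
      rcases ha with ⟨n, Δ, hΔ, h1⟩ | ⟨j, hj, f, hf, z, rfl⟩ | ⟨b, f, hf, z, rfl⟩
      · have h4 : ∀ g ∈ Δ, ∀ z : K, (((χ ^ n) g : K) • z) • a =
            ((1 : Γ →* Kˣ) g : K) • τ g (z • a) := by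
          intro g hg z
          rw [map_smul, h1 g hg, MonoidHom.one_apply, Units.val_one, one_smul,
            MonoidHom.pow_apply, Units.val_pow_eq_pow_val, smul_comm z, smul_assoc]
        have h2 := lin_der (N := N) (a := Ix.chi n) (c := Ix.alg)
          (LinearMap.toSpanSingleton K A a) hΔ (fun g hg z => h4 g hg z) hDG (1 : K)
        rw [hDc] at h2
        have h3 : E ((1 : K) • a) = 0 := by
          refine Eq.trans h2.symm ?_
          exact map_zero _
        rwa [one_smul] at h3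
      · have h4 : ∀ (g : Γ) (y : (T j).V), f ((T j).ρ g y) =
            ((1 : Γ →* Kˣ) g : K) • τ g (f y) := by
          intro g y
          rw [hf, MonoidHom.one_apply, Units.val_one, one_smul]
        have h2 := lin_der (N := N) (a := Ix.t j) (c := Ix.alg) f (Δ := ⊤) inferInstance
          (fun g _ y => h4 g y) hDG z
        rw [hDT j hj] at h2
        exact h2.symm.trans (map_zero f)
      · have h4 : ∀ (g : Γ) (y : (M b).V), f ((M b).ρ g y) =
            ((1 : Γ →* Kˣ) g : K) • τ g (f y) := by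
          intro g y
          rw [hf, MonoidHom.one_apply, Units.val_one, one_smul]
        have h2 := lin_der (N := N) (a := Ix.pc b) (c := Ix.alg) f (Δ := ⊤) inferInstance
          (fun g _ y => h4 g y) hDG z
        rw [hDM b] at h2
        exact h2.symm.trans (map_zero f)
    | algebraMap r => rw [Algebra.algebraMap_eq_smul_one, map_smul, hE1, smul_zero]
    | add a b _ _ ha hb => rw [map_add, ha, hb, add_zero]
    | mul a b _ _ ha hb => rw [hE, ha, hb, zero_mul, mul_zero, add_zero]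
  -- the target
  have htgt : ∀ a : A, D Ix.tgt a = 0 := by
    intro a
    have h4 : ∀ (g : Γ) (x : K) (y : A), ((lam g : K) • x) • (((1 : Γ →* Kˣ) g : K) • τ g y) =
        (lam g : K) • τ g (x • y) := by
      intro g x y
      rw [map_smul, MonoidHom.one_apply, Units.val_one, one_smul, smul_assoc]
    have h1 := bil_der (N := N) (a := Ix.lam) (b := Ix.alg) (c := Ix.tgt)
      (LinearMap.lsmul K A) (Δ := ⊤) inferInstance (fun g _ x y => h4 g x y) hDG (1 : K) a
    rw [hDl] at h1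
    have h2 : D Ix.tgt ((1 : K) • a) = 0 := by
      refine Eq.trans h1.symm ?_
      change (0 : K) • a + (1 : K) • E a = 0
      rw [hE0, smul_zero, zero_smul, add_zero]
    rwa [one_smul] at h2
  intro w
  obtain ⟨Δ, hΔ, hΔh⟩ := hh
  have h1 := hDG R (fun _ => Ix.t i) Ix.tgt h ⟨Δ, hΔ, hΔh⟩ w
  have h2 : D Ix.tgt (h w) = 0 := htgt (h w)
  have h3 : D (Ix.t i) = oo (hT i).B (-1) x y := by
    rw [hDt, hoB]
    rfl
  refine Eq.trans (Finset.sum_congr rfl fun j _ => ?_) (h1.trans h2)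
  exact congrArg (fun Y : Module.End K (T i).V => h (update w j (Y (w j)))) h3.symm

end

end Run7.h552.SF
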