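import Pool.Agent.Run7.h552.SF.Cnv

/-!
# The standard conjectures for products with powers: local conditions at different places
-/

set_option autoImplicit false
set_option linter.unusedSectionVars false

open CategoryTheory AlgebraicGeometry Finset Function

universe u

namespace Run7.h552.SF

open Pool.Agent Pool.Agent.H914 Pool.Agent.H914.VarClass Pool.Agent.H914.VarClass.Obj
  Pool.Agent.H914.WeilCohomology Pool.Agent.H281R3.HT Pool.Agent.W552 Pool.Agent.TH125.Gal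
  Pool.Agent.Y127 Pool.Agent.Y127.G Pool.Agent.Y95.ZT Run7.h552.CT Pool.Agent.V11219
  Pool.Agent.V11219.Loc Pool.Agent.H447

variable {k : Type u} [Field k] {𝒱 : VarClass k} {ops : CycleOps 𝒱}
  {W : WeilCohomology.{u, 0} ops} {Γ : Type} [Group Γ] {χ : Γ →* W.Kˣ}
  {ι : Type} {X : ι → GVar W Γ} {S : Set ι} {Y : GVar W Γ}
  {m : ℕ} {M : Fin m → FRep W.K Γ}

/-- one step of the generation of the cohomology -/
theorem genBy_stepP {i : ι} {n : ℕ} (hG : ∀ i, GaloisType χ (X i)) (hD : HomEqNum W (X i).X)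
    (D : (X i).X.Cycles)
    (hgen : GenBy (fun j => trRep (hG j)) M χ Y.act S)
    {υ : Γ →* (W.H ((nest ops n fun _ => (⟨(X i).X, D⟩ : Polarized 𝒱)).X.prod Y.X) ≃ₐ[W.K] W.H ((nest ops n fun _ => (⟨(X i).X, D⟩ : Polarized 𝒱)).X.prod Y.X))}
    (h1 : ∀ p, Intertwines (W.map (fst (nest ops n fun _ => (⟨(X i).X, D⟩ : Polarized 𝒱)).X Y.X ≫ prj ops n (fun _ => (⟨(X i).X, D⟩ : Polarized 𝒱)) p))
      (X i).act υ) (h2 : Intertwines (W.map (snd (nest ops n fun _ => (⟨(X i).X, D⟩ : Polarized 𝒱)).X Y.X)) Y.act υ) :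
    GenBy (fun j => trRep (hG j)) M χ υ (insert i S) := by
  unfold GenBy
  rw [eq_top_iff]
  set G := SemiInv χ υ ∪
    ({x | ∃ j ∈ insert i S, ∃ f : (trRep (hG j)).V →ₗ[W.K] W.H ((nest ops n fun _ => (⟨(X i).X, D⟩ : Polarized 𝒱)).X.prod Y.X),
        (∀ g y, f ((trRep (hG j)).ρ g y) = υ g (f y)) ∧ ∃ y, f y = x} ∪
     {x | ∃ a, ∃ f : (M a).V →ₗ[W.K] W.H ((nest ops n fun _ => (⟨(X i).X, D⟩ : Polarized 𝒱)).X.prod Y.X),
        (∀ g y, f ((M a).ρ g y) = υ g (f y)) ∧ ∃ y, f y = x}) with hGdef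
  -- the factor `X i`
  have k1 : ∀ (p : Fin (n + 1)) (a : W.H (X i).X),
      W.map (fst (nest ops n fun _ => (⟨(X i).X, D⟩ : Polarized 𝒱)).X Y.X ≫ prj ops n (fun _ => (⟨(X i).X, D⟩ : Polarized 𝒱)) p) a ∈
        Algebra.adjoin W.K G := by
    intro p a
    have ha : a ∈ algSpan W (X i).X ⊔ transcendental W (X i).X := by
      rw [(isCompl hD).sup_eq_top]
      exact Submodule.mem_top
    obtain ⟨a1, ha1, a2, ha2, rfl⟩ := Submodule.mem_sup.1 ha
    rw [map_add]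
    clear ha
    refine Subalgebra.add_mem _ ?_ ?_
    · induction ha1 using Submodule.span_induction with
      | mem a ha =>
        obtain ⟨j, hj⟩ := Set.mem_iUnion.1 ha
        obtain ⟨Δ, hΔ, h3⟩ := (hG i).cl_fix j a hj
        refine Algebra.subset_adjoin (Or.inl ⟨j, Δ, hΔ, fun g hg => ?_⟩)
        rw [h1 p g a, h3 g hg, map_smul]
      | zero => rw [map_zero]; exact Subalgebra.zero_mem _
      | add x y _ _ hx hy => rw [map_add]; exact Subalgebra.add_mem _ hx hy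
      | smul q x _ hx => rw [map_smul]; exact Subalgebra.smul_mem _ hx q
    · refine Algebra.subset_adjoin (Or.inr (Or.inl ⟨i, Set.mem_insert _ _,
        (W.map (fst (nest ops n fun _ => (⟨(X i).X, D⟩ : Polarized 𝒱)).X Y.X ≫ prj ops n (fun _ => (⟨(X i).X, D⟩ : Polarized 𝒱)) p)).toLinearMap ∘ₗ
          (transcendental W (X i).X).subtype, fun g y => ?_, ⟨a2, ha2⟩, rfl⟩))
      exact (h1 p g y.1).symm
  -- the factor `Y`
  have k2 : ∀ y : W.H Y.X, W.map (snd (nest ops n fun _ => (⟨(X i).X, D⟩ : Polarized 𝒱)).X Y.X) y ∈ Algebra.adjoin W.K G := by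
    intro y
    have hy : y ∈ Algebra.adjoin W.K (SemiInv χ Y.act ∪
      ({x | ∃ j ∈ S, ∃ f : (trRep (hG j)).V →ₗ[W.K] W.H Y.X,
          (∀ g y, f ((trRep (hG j)).ρ g y) = Y.act g (f y)) ∧ ∃ y, f y = x} ∪
       {x | ∃ a, ∃ f : (M a).V →ₗ[W.K] W.H Y.X,
          (∀ g y, f ((M a).ρ g y) = Y.act g (f y)) ∧ ∃ y, f y = x})) := by
      rw [show Algebra.adjoin W.K _ = ⊤ from hgen]
      exact Algebra.mem_top
    induction hy using Algebra.adjoin_induction with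
    | mem y hy =>
      rcases hy with ⟨j, Δ, hΔ, h3⟩ | ⟨j, hj, f, hf, z, rfl⟩ | ⟨a, f, hf, z, rfl⟩
      · refine Algebra.subset_adjoin (Or.inl ⟨j, Δ, hΔ, fun g hg => ?_⟩)
        rw [h2 g y, h3 g hg, map_smul]
      · refine Algebra.subset_adjoin (Or.inr (Or.inl ⟨j, Set.mem_insert_of_mem _ hj,
          (W.map (snd (nest ops n fun _ => (⟨(X i).X, D⟩ : Polarized 𝒱)).X Y.X)).toLinearMap ∘ₗ f, fun g y => ?_, z, rfl⟩))
        rw [LinearMap.comp_apply, hf]
        exact (h2 g (f y)).symm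
      · refine Algebra.subset_adjoin (Or.inr (Or.inr ⟨a,
          (W.map (snd (nest ops n fun _ => (⟨(X i).X, D⟩ : Polarized 𝒱)).X Y.X)).toLinearMap ∘ₗ f, fun g y => ?_, z, rfl⟩))
        rw [LinearMap.comp_apply, hf]
        exact (h2 g (f y)).symm
    | algebraMap r => rw [AlgHom.commutes]; exact Subalgebra.algebraMap_mem _ r
    | add x y _ _ hx hy => rw [map_add]; exact Subalgebra.add_mem _ hx hy
    | mul x y _ _ hx hy => rw [map_mul]; exact Subalgebra.mul_mem _ hx hy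
  intro c _
  obtain ⟨b, hb⟩ := exists_monoBasis (ops := ops) (⟨(X i).X, D⟩ : Polarized 𝒱)
    (Module.finBasis W.K (W.H (X i).X)) n
  rw [expand b c]
  refine Subalgebra.sum_mem _ fun r _ => Subalgebra.mul_mem _ ?_ (k2 _)
  rw [hb, map_mono, mono]
  refine Subalgebra.list_prod_mem _ fun x hx => ?_
  obtain ⟨p, rfl⟩ := List.mem_ofFn.1 hx
  exact k1 p _


/-- the same with the compatibility of the action -/
theorem genBy_pow {i : ι} {n : ℕ} (hG : ∀ i, GaloisType χ (X i)) (hD : HomEqNum W (X i).X)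
    (D : (X i).X.Cycles) {Y : 𝒱.Obj} {τ : Γ →* (W.H Y ≃ₐ[W.K] W.H Y)}
    (hgen : GenBy (fun j => trRep (hG j)) M χ τ S)
    {υ : Γ →* (W.H ((nest ops n fun _ => (⟨(X i).X, D⟩ : Polarized 𝒱)).X.prod Y) ≃ₐ[W.K]
      W.H ((nest ops n fun _ => (⟨(X i).X, D⟩ : Polarized 𝒱)).X.prod Y))}
    (hP : IsPowAct W ⟨(X i).X, D⟩ n Y (X i).act τ υ) :
    GenBy (fun j => trRep (hG j)) M χ υ (insert i S) := by
  refine genBy_stepP (Y := ⟨Y, τ⟩) hG hD D hgen (fun p g a => ?_) fun g b => (hP g).2 b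
  have h1 := (hP g).1 p a
  rw [W.map_comp, W.map_comp]
  exact h1

/-- **The whole Lie algebra.** -/
theorem fullR_of_gen [IsAlgClosed W.K] (hG : ∀ i, GaloisType χ (X i))
    (hD : ∀ i, HomEqNum W (X i).X) (hodd : ∀ i, Odd (X i).X.dim)
    (hmid : ∀ i, transcendental W (X i).X ≤ W.gr (X i).X (X i).X.dim)
    (hirr : ∀ i, IrredAct (X i).act (transcendental W (X i).X))
    (hloc : ∀ i, BigLoc (trRep (hG i)))
    (hiso : ∀ i j, i ≠ j → ¬Y127.G.TwistIso (X i).act (transcendental W (X i).X) (X j).act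
      (transcendental W (X j).X)) {Y : 𝒱.Obj} {τ : Γ →* (W.H Y ≃ₐ[W.K] W.H Y)}
    (hS : S.Finite) (hgen : GenBy (fun j => trRep (hG j)) M χ τ S) {i : ι} (hi : i ∉ S)
    (hM : ∀ a, SmallRel (trRep (hG i)) (M a)) (D : (X i).X.Cycles) :
    Sst.FullR (P := ⟨(X i).X, D⟩) χ (isGalois (hG i)) τ := by
  choose R hR using fun i => exists_sRep (hG i) (hD i) (hodd i) (hmid i) (hirr i) (hloc i)
  intro S' _ _ lam hlam x y
  rw [TH118.SG.rk_eq_SS, SS_eq]
  refine ⟨oom_skew (fun a b => tr_sk (hmid i) (hodd i) a b) x y, fun f hf => ?_⟩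
  have h1 := kill_of_data (A := W.H Y) (T := fun j => trRep (hG j)) (M := M) (χ := χ) (τ := τ)
    hS hgen (fun j => R j) (fun i j hij => not_isoUpTo (hiso i j hij)) hi hM lam (h := f) hf x y
  rw [hR i] at h1
  exact h1

end Run7.h552.SF
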