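import Pool.Agent.Run7.h552.SF.Std

/-!
# Systems of varieties with local conditions at different places: the standard conjectures
-/

set_option autoImplicit false
set_option linter.unusedSectionVars false

open CategoryTheory AlgebraicGeometry Finset Function

universe u

namespace Run7.h552.SF

open Pool.Agent Pool.Agent.H914 Pool.Agent.H914.VarClass Pool.Agent.H914.VarClass.Obj
  Pool.Agent.H914.WeilCohomology Pool.Agent.H281R3.HT Pool.Agent.W552 Pool.Agent.TH125.Gal
  Pool.Agent.Y127 Pool.Agent.Y127.G Pool.Agent.Y95.ZT Run7.h552.CT Pool.Agent.V11219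
  Pool.Agent.V11219.Loc Pool.Agent.H447 Pool.Agent.V11219.Sst

section ne

variable {K : Type} [Field K] [CharZero K] {Γ : Type} [Group Γ]

theorem not_wType_zero {M : FRep K Γ} (h : WType M 0) : False := by
  rcases h with ⟨a, a', -, h, -⟩ | ⟨s', h, c, ⟨-, h1, -⟩, -⟩
  · rw [Multiset.count_zero] at h
    exact absurd h (by norm_num)
  · exact absurd h1.symm (Multiset.cons_ne_zero)

/-- representations with a local condition are not zero -/
theorem exists_ne_of_bigLoc {M : FRep K Γ} (h : BigLoc M) : ∃ x : M.V, x ≠ 0 := by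
  by_contra hcon
  push Not at hcon
  have hs : Subsingleton M.V := ⟨fun a b => by rw [hcon a, hcon b]⟩
  rcases h with ⟨v, F, h⟩ | ⟨D, s, hs', h⟩ | h
  · have h1 : slopes v (M.ρ F) = 0 := by
      have h2 : (M.ρ F : Module.End K M.V).charpoly.roots = 0 := by
        rw [← Multiset.card_eq_zero, ← Nat.le_zero]
        refine (Polynomial.card_roots' _).trans ?_
        rw [LinearMap.charpoly_natDegree, Module.finrank_zero_of_subsingleton]
      rw [slopes, h2, Multiset.map_zero]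
    rw [h1] at h
    exact not_wType_zero h
  · obtain ⟨κ, hκ, b, w, -, hw⟩ := hs'
    have h1 : IsEmpty κ := ⟨fun k => b.ne_zero k (hcon _)⟩
    rw [Finset.univ_eq_empty, Finset.empty_val, Multiset.map_zero] at hw
    rw [← hw, Multiset.map_zero] at h
    exact not_wType_zero h
  · obtain ⟨g, -, hg⟩ := exists_ne_one h
    exact hg (LinearMap.ext fun x => Subsingleton.elim _ _)

end ne

variable {k : Type u} [Field k] {𝒱 : VarClass k} {ops : CycleOps 𝒱}
  {W : WeilCohomology.{u, 0} ops} {Γ : Type} [Group Γ] {χ : Γ →* W.Kˣ}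
  {ι : Type} {X : ι → GVar W Γ} {G : Set (GVar W Γ)} {D : ∀ i, (X i).X.Cycles} {Z : GVar W Γ}

theorem P.System.galoisClass (h : P.System χ G X D Z) : GaloisClass χ G where
  galois := h.galois
  prod := fun A hA B hB => by
    obtain ⟨υ, hυ, hG⟩ := h.prod A hA B hB
    exact ⟨_, hG, IsProdVar.mk υ hυ.1 hυ.2⟩

theorem P.System.gal (h : P.System χ G X D Z) (i : ι) : Y127.GaloisType χ (X i) :=
  h.galois _ (h.mem i)

theorem P.System.hnum (h : P.System χ G X D Z) (i : ι) : HomEqNum W (X i).X :=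
  homEqNum_of_pol (h.transIrred i).polarization

/-- The generation of the cohomology is inherited. -/
def Gens (hG : ∀ i, Y127.GaloisType χ (X i)) (Z : GVar W Γ) {Y : 𝒱.Obj}
    (τ : Γ →* (W.H Y ≃ₐ[W.K] W.H Y)) (S : Set ι) : Prop :=
  ∀ (m : ℕ) (M : Fin m → FRep W.K Γ), GenBy (fun j => trRep (hG j)) M χ Z.act ∅ →
    GenBy (fun j => trRep (hG j)) M χ τ S

/-- The action on the towers. -/
theorem P.System.tower (h : P.System χ G X D Z) (E : Z.X.Cycles) (L : List (ι × ℕ)) :
    ∃ υ : Γ →* (W.H (tower' ops (fun i => ⟨(X i).X, D i⟩) ⟨Z.X, E⟩ L).X ≃ₐ[W.K]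
        W.H (tower' ops (fun i => ⟨(X i).X, D i⟩) ⟨Z.X, E⟩ L).X),
      (⟨(tower' ops (fun i => ⟨(X i).X, D i⟩) ⟨Z.X, E⟩ L).X, υ⟩ : GVar W Γ) ∈ G ∧
      Gens h.gal Z υ {i | i ∈ L.map Prod.fst} := by
  induction L with
  | nil =>
    refine ⟨Z.act, h.mem_base, fun m M hM => ?_⟩
    have e : {i : ι | i ∈ ([] : List (ι × ℕ)).map Prod.fst} = ∅ := by
      ext i
      simp
    rw [e]
    exact hM
  | cons a L ih =>
    obtain ⟨τ, hτ, hK⟩ := ih
    obtain ⟨υ, hυ, hP⟩ := exists_pow_act h.galoisClass (h.mem a.1) hτ (D a.1) a.2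
    refine ⟨υ, hυ, fun m M hM => ?_⟩
    have e : {i : ι | i ∈ (a :: L).map Prod.fst} = insert a.1 {i | i ∈ L.map Prod.fst} := by
      ext i
      simp
    rw [e]
    exact genBy_pow h.gal (h.hnum a.1) (D a.1) (hK m M hM) hP

/-- The generation of the cohomology of the base. -/
theorem P.System.baseGen (h : P.System χ G X D Z) (i : ι) :
    ∃ (m : ℕ) (M : Fin m → FRep W.K Γ), (∀ a, SmallRel (trRep (h.gal i)) (M a)) ∧
      GenBy (fun j => trRep (h.gal j)) M χ Z.act ∅ := by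
  obtain ⟨m, U, h1, h2, h3⟩ := h.base i
  refine ⟨m, fun a => Y95.ZT.subRep Z.act (U a) (h2 a), fun a => small_of (fun g x => rfl) (h2 a)
    (h1 a), ?_⟩
  unfold GenBy
  rw [eq_top_iff, ← h3]
  refine Algebra.adjoin_mono ?_
  rintro x (hx | hx)
  · exact Or.inl hx
  · obtain ⟨a, ha⟩ := Set.mem_iUnion.1 hx
    exact Or.inr (Or.inr ⟨a, (U a).subtype, fun g y => rfl, ⟨x, ha⟩, rfl⟩)

/-- The conditions for one step. -/
theorem P.System.split [IsAlgClosed W.K] (h : P.System χ G X D Z) (i : ι) {S : Set ι}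
    (hS : S.Finite) (hi : i ∉ S)
    {Y : 𝒱.Obj} {υ : Γ →* (W.H Y ≃ₐ[W.K] W.H Y)} (hY : (⟨Y, υ⟩ : GVar W Γ) ∈ G)
    (hK : Gens h.gal Z υ S) : SplitData (X i) (D i) ⟨Y, υ⟩ := by
  have hpol := (h.transIrred i).polarization
  have hmid := (h.transIrred i).middle
  have hDX := homEqNum_of_pol hpol
  obtain ⟨m, M, hM, hgen⟩ := h.baseGen i
  have hfull : FullR (P := ⟨(X i).X, D i⟩) χ (isGalois (h.gal i)) υ :=
    fullR_of_gen h.gal h.hnum h.odd (fun i => (h.transIrred i).middle)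
      (fun i => (h.transIrred i).irreducible) (fun i => bigLoc_of (h.gal i) (h.loc i)) h.notIso hS
      (hK m M hgen) hi hM (D i)
  obtain ⟨t, ht⟩ := exists_ne_of_bigLoc (bigLoc_of (h.gal i) (h.loc i))
  have hone : (1 : W.H (X i).X) ≠ 0 := by
    intro h3
    apply ht
    apply Subtype.ext
    have h4 : ∀ t : W.H (X i).X, t = 0 := fun t => by rw [← one_mul t, h3, zero_mul]
    exact h4 _
  exact ⟨hpol, hmid, hone, fun s m c hc =>
    tgt_of_fullR h.galoisClass (h.mem i) hY hmid hDX (h.odd i) hfull s m c hc⟩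

theorem fin_map (L : List (ι × ℕ)) : ({i | i ∈ L.map Prod.fst} : Set ι).Finite :=
  List.finite_toSet _

/-- **The conjecture D.** -/
theorem homEqNum_sys [IsAlgClosed W.K] (h : P.System χ G X D Z) (E : Z.X.Cycles)
    (L : List (ι × ℕ)) (hL : (L.map Prod.fst).Nodup) :
    HomEqNum W (nodalTower X D Z E L).X ↔ HomEqNum W Z.X := by
  rw [nodalTower, tower_eq]
  induction L with
  | nil => exact Iff.rfl
  | cons a L ih =>
    rw [List.map_cons, List.nodup_cons] at hL
    obtain ⟨υ, hυ, hK⟩ := h.tower E L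
    have hN := h.split a.1 (fin_map L) hL.1 hυ hK
    rw [← ih hL.2]
    constructor
    · intro h1
      obtain ⟨x, hx⟩ := exists_tr hN.one_ne
      have h2 : W.tr (nest ops a.2 fun _ => (⟨(X a.1).X, D a.1⟩ : Polarized 𝒱)).X
          (mono (prj ops a.2 fun _ => (⟨(X a.1).X, D a.1⟩ : Polarized 𝒱)) fun _ => x) ≠ 0 := by
        rw [tr_mono]
        exact pow_ne_zero _ hx
      exact homEqNum_factor h2 h1
    · intro h1
      exact hN.homEqNum_prod a.2 h1

/-- **The conjecture of Hodge type.** -/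
theorem hodge_sys [IsAlgClosed W.K] (h : P.System χ G X D Z) {E : Z.X.Cycles}
    (hE : IsPolarization W Z.X E) (L : List (ι × ℕ)) (hL : (L.map Prod.fst).Nodup) :
    HodgeType W (nodalTower X D Z E L).X (nodalTower X D Z E L).D ∧
      HomEqNum W (nodalTower X D Z E L).X := by
  rw [nodalTower, tower_eq]
  have key : ∃ g, Fp W (tower' ops (fun i => ⟨(X i).X, D i⟩) ⟨Z.X, E⟩ L).X
      (tower' ops (fun i => ⟨(X i).X, D i⟩) ⟨Z.X, E⟩ L).D g := by
    induction L with
    | nil =>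
      obtain ⟨g, hg, _⟩ := exists_Fp hE.div hE.hard hE.lefschetz hE.hodge
      exact ⟨g, hg⟩
    | cons a L ih =>
      rw [List.map_cons, List.nodup_cons] at hL
      obtain ⟨υ, hυ, hK⟩ := h.tower E L
      exact (h.split a.1 (fin_map L) hL.1 hυ hK).fp_prod a.2 (ih hL.2)
  obtain ⟨g, F⟩ := key
  exact F.hodge

/-- **The conjecture A for all divisors.** -/
theorem lefAll_sys [IsAlgClosed W.K] (h : P.System χ G X D Z) (E : Z.X.Cycles)
    (L : List (ι × ℕ)) (hL : (L.map Prod.fst).Nodup) :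
    LefAll W (nodalTower X D Z E L).X ↔ LefAll W Z.X := by
  rw [nodalTower, tower_eq]
  induction L with
  | nil => exact Iff.rfl
  | cons a L ih =>
    rw [List.map_cons, List.nodup_cons] at hL
    obtain ⟨υ, hυ, hK⟩ := h.tower E L
    have hN := h.split a.1 (fin_map L) hL.1 hυ hK
    rw [← ih hL.2]
    exact hN.lefAll_iff a.2

/-- Hard Lefschetz for towers. -/
theorem hard_sys [IsAlgClosed W.K] (h : P.System χ G X D Z) {E : Z.X.Cycles}
    (hE : Z.X.IsCyc 1 E) (hHL : HardLefschetz W Z.X E) (L : List (ι × ℕ))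
    (hL : (L.map Prod.fst).Nodup) :
    (tower' ops (fun i => ⟨(X i).X, D i⟩) ⟨Z.X, E⟩ L).X.IsCyc 1
      (tower' ops (fun i => ⟨(X i).X, D i⟩) ⟨Z.X, E⟩ L).D ∧
    HardLefschetz W (tower' ops (fun i => ⟨(X i).X, D i⟩) ⟨Z.X, E⟩ L).X
      (tower' ops (fun i => ⟨(X i).X, D i⟩) ⟨Z.X, E⟩ L).D := by
  induction L with
  | nil => exact ⟨hE, hHL⟩
  | cons a L ih =>
    rw [List.map_cons, List.nodup_cons] at hL
    obtain ⟨υ, hυ, hK⟩ := h.tower E L
    have hN := h.split a.1 (fin_map L) hL.1 hυ hK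
    have h1 := ih hL.2
    obtain ⟨hP, hPL⟩ := hN.nest_hard a.2
    exact ⟨SmVar.IsCyc.add (ops.pull_mem _ hP) (ops.pull_mem _ h1.1),
      hardLefschetz_prod hP h1.1 hPL h1.2⟩

/-- **The conjecture A for the sum of the divisors.** -/
theorem lefschetzA_sys [IsAlgClosed W.K] (h : P.System χ G X D Z) {E : Z.X.Cycles}
    (hE : Z.X.IsCyc 1 E) (hHL : HardLefschetz W Z.X E) (L : List (ι × ℕ))
    (hL : (L.map Prod.fst).Nodup) :
    LefschetzA W (nodalTower X D Z E L).X (nodalTower X D Z E L).D ↔ LefschetzA W Z.X E := by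
  rw [nodalTower, tower_eq]
  induction L with
  | nil => exact Iff.rfl
  | cons a L ih =>
    rw [List.map_cons, List.nodup_cons] at hL
    obtain ⟨υ, hυ, hK⟩ := h.tower E L
    have hN := h.split a.1 (fin_map L) hL.1 hυ hK
    have h1 := hard_sys h hE hHL L hL.2
    rw [← ih hL.2]
    exact hN.lefschetzA_iff a.2 h1.1 h1.2

end Run7.h552.SF
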