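import Pool.Agent.Run7.h552.SF.QDefs
import Pool.Agent.Run7.h552.SF.Sys

/-!
# The compact definitions
-/

set_option autoImplicit false
set_option linter.unusedSectionVars false

open CategoryTheory AlgebraicGeometry

universe u

namespace Run7.h552.SF

open Pool.Agent Pool.Agent.H914 Pool.Agent.H914.VarClass Pool.Agent.H914.VarClass.Obj
  Pool.Agent.H914.WeilCohomology Pool.Agent.H281R3.HT Pool.Agent.W552 Pool.Agent.TH125.Gal
  Pool.Agent.Y127 Pool.Agent.Y127.G Pool.Agent.Y95.ZT Run7.h552.CT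

section Alg

variable {K : Type} [Field K] {A : Type} [Ring A] [Algebra K A] [FiniteDimensional K A]
  {B : Type} [Ring B] [Algebra K B] [FiniteDimensional K B] {Γ : Type} [Group Γ]

theorem tensorType_of {ρ : V11219.Min.Act K A Γ} {T : Submodule K A} (h : P.TensorOn ρ T) :
    Q.TensorType K fun g (t t' : T) => ρ g t = t' := by
  obtain ⟨x, y, h1, h2, h3, h4⟩ := h
  refine ⟨x, y, h1, h2, h3, fun g c => ?_⟩
  have h5 : Q.comb x y c ∈ Submodule.span K {x, y, x * y - y * x} :=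
    Submodule.mem_span_triple.2 ⟨c 0, c 1, c 2, rfl⟩
  obtain ⟨a', ha', h6⟩ := h4 g _ h5
  obtain ⟨c0, c1, c2, h7⟩ := Submodule.mem_span_triple.1 ha'
  refine ⟨![c0, c1, c2], fun t t' ht => ?_⟩
  have h8 : Q.comb x y ![c0, c1, c2] = a' := h7
  rw [h8]
  exact h6 t t' ht

theorem localType_of {ρ : V11219.Min.Act K A Γ} {T : Submodule K A} (h : Q.LocalType ρ T) :
    P.LocalType ρ T := by
  rcases h with ⟨v, F, s, h1, h2⟩ | h
  · refine Or.inl ⟨v, F, s, h1, ?_⟩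
    rcases h2 with h2 | ⟨s', h', c, h3, h4⟩
    · exact Or.inl h2
    · refine Or.inr ⟨s', h', c, h3, h4.imp_right ?_⟩
      rintro ⟨q, h5, h6, h7⟩
      exact ⟨q, h5, h6, h7.imp_right fun h8 h9 => h8 (tensorType_of h9)⟩
  · exact Or.inr h

theorem twistIso_of {ρ : V11219.Min.Act K A Γ} {T : Submodule K A} {ρ' : V11219.Min.Act K B Γ}
    {U : Submodule K B} (hT : ∀ g, ∀ x ∈ T, ρ g x ∈ T) (h : Y127.G.TwistIso ρ T ρ' U) :
    Q.TwistIso ρ T ρ' U := by
  obtain ⟨ψ, ε, h1⟩ := h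
  obtain ⟨p, hp⟩ := LinearMap.exists_leftInverse_of_injective T.subtype T.ker_subtype
  have hp' : ∀ x : T, p x = x := fun x => LinearMap.congr_fun hp x
  refine ⟨fun a => (ψ (p a) : B), ε, ?_, ⟨?_, ?_, ?_⟩, ?_⟩
  · exact ⟨fun a b => by rw [map_add, map_add, Submodule.coe_add],
      fun c a => by rw [map_smul, map_smul, Submodule.coe_smul]⟩
  · exact fun x _ => (ψ (p x)).2
  · intro x hx y hy hxy
    have h2 := ψ.injective (Subtype.ext hxy)
    rw [hp' ⟨x, hx⟩, hp' ⟨y, hy⟩] at h2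
    exact congrArg Subtype.val h2
  · intro y hy
    refine ⟨(ψ.symm ⟨y, hy⟩ : T), (ψ.symm ⟨y, hy⟩).2, ?_⟩
    change ((ψ (p (ψ.symm ⟨y, hy⟩ : T)) : U) : B) = y
    rw [hp', LinearEquiv.apply_symm_apply]
  · intro g x hx
    change ((ψ (p (ρ g x)) : U) : B) = ε g • ρ' g ((ψ (p x) : U) : B)
    rw [hp' ⟨x, hx⟩, hp' ⟨ρ g x, hT g x hx⟩]
    exact h1 g ⟨x, hx⟩ ⟨ρ g x, hT g x hx⟩ rfl

theorem formOn_of {ρ : V11219.Min.Act K A Γ} {U : Submodule K A} {s : K} (h : Q.FormOn ρ U s) :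
    Y127.G.FormOn ρ U s := by
  obtain ⟨μ, b, h1, h2, h3, h4, h5⟩ := h
  exact ⟨μ, LinearMap.mk₂ K b (fun x x' y => (h2 y).map_add x x') (fun c x y => (h2 y).map_smul c x)
    (fun x y y' => (h1 x).map_add y y') (fun c x y => (h1 x).map_smul c y), h3, h4, h5⟩

theorem smallFor_of {ρ : V11219.Min.Act K A Γ} {T : Submodule K A} {ρ' : V11219.Min.Act K B Γ}
    {U : Submodule K B} (h : Q.SmallFor ρ T ρ' U) : P.SmallFor ρ T ρ' U := by
  rcases h with h | h | h | h | h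
  · exact Or.inl h
  · exact Or.inr (Or.inl h)
  · exact Or.inr (Or.inr (Or.inl ⟨formOn_of h.1, h.2⟩))
  · exact Or.inr (Or.inr (Or.inr (Or.inl ⟨formOn_of h.1, h.2⟩)))
  · exact Or.inr (Or.inr (Or.inr (Or.inr h)))

theorem genSmall_of {χ : Γ →* Kˣ} {ρ : V11219.Min.Act K A Γ} {T : Submodule K A}
    {ρ' : V11219.Min.Act K B Γ} (h : Q.GenSmall χ ρ T ρ') : P.GenSmall χ ρ T ρ' := by
  obtain ⟨m, U, h1, h2, h3⟩ := h
  exact ⟨m, U, fun a => smallFor_of (h1 a), h2, h3⟩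

end Alg

variable {k : Type u} [Field k] {𝒱 : VarClass k} {ops : CycleOps 𝒱}
  {W : WeilCohomology.{u, 0} ops} {Γ : Type} [Group Γ] {χ : Γ →* W.Kˣ}
  {ι : Type} {X : ι → GVar W Γ} {G : Set (GVar W Γ)} {D : ∀ i, (X i).X.Cycles} {Z : GVar W Γ}

/-- From the compact definitions to the others. -/
theorem Q.System.toP (h : Q.System χ G X D Z) : P.System χ G X D Z where
  galois := h.galois
  prod := fun A hA B hB => by
    obtain ⟨υ, h1, h2, h3⟩ := h.prod A hA B hB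
    exact ⟨υ, ⟨h1, h2⟩, h3⟩
  mem := h.mem
  mem_base := h.mem_base
  odd := h.odd
  transIrred := h.transIrred
  loc := fun i => localType_of (h.loc i)
  notIso := fun i j hij h1 => h.notIso i j hij (twistIso_of
    (fun g x hx => (rhoT (isGalois (h.galois _ (h.mem i))) g ⟨x, hx⟩).2) h1)
  base := fun i => genSmall_of (h.base i)

end Run7.h552.SF
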