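import Mathlib

/-!
# Multisets of slopes: definitions
-/

set_option autoImplicit false

namespace Run7.h552.SF

/-- The number `a` is isolated in the multiset `s`, with the dual number `a'`: `a` and `a'` are
different and have multiplicity one, and `y + a = x + z` with `x`, `y`, `z` in `s`, `x ≠ a`,
`y ≠ a'` is possible only for `z = a`. -/
def IsolatedAt (s : Multiset ℚ) (a a' : ℚ) : Prop :=
  a ≠ a' ∧ s.count a = 1 ∧ s.count a' = 1 ∧
    ∀ x ∈ s, x ≠ a → ∀ y ∈ s, y ≠ a' → ∀ z ∈ s, y + a = x + z → z = a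

/-- The multiset `s` consists of the numbers `h + 3 c` and `h - 3 c` and of the multiset `s'`, whose
elements are in the interval from `h - c` to `h + c`; and `c > 0`. -/
def HeightOneAt (s s' : Multiset ℚ) (h c : ℚ) : Prop :=
  0 < c ∧ s = (h + 3 * c) ::ₘ (h - 3 * c) ::ₘ s' ∧ ∀ x ∈ s', |x - h| ≤ c

end Run7.h552.SF
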