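import Pool.Agent.Run7.h552.SF.Typ

/-!
# Criteria for small representations
-/

set_option autoImplicit false
set_option linter.unusedSectionVars false

namespace Run7.h552.SF

open Module Finset Function Pool.Agent.TH125.Gal Pool.Agent.Y127.G Pool.Agent.Y127.C
  Pool.Agent.Y95.ZT Run7.h552.CT

noncomputable section

section lin

variable {K : Type} [Field K] [CharZero K] {V : Type} [AddCommGroup V] [Module K V]
  [FiniteDimensional K V]

theorem charpoly_wt {A : Module.End K V} {κ : Type} [Fintype κ] {b : Basis κ K V} {w : κ → ℚ}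
    (hb : ∀ k, A (b k) = (w k : K) • b k) :
    A.charpoly.roots = ((univ : Finset κ).val.map w).map fun z : ℚ => (z : K) := by
  classical
  have h1 : LinearMap.toMatrix b b A = Matrix.diagonal fun k => (w k : K) := by
    ext i j
    rw [LinearMap.toMatrix_apply, hb, map_smul, b.repr_self, Finsupp.smul_apply, smul_eq_mul,
      Matrix.diagonal_apply, Finsupp.single_apply]
    by_cases h : i = j
    · subst h
      simp
    · rw [if_neg h, if_neg (Ne.symm h), mul_zero]
  rw [← LinearMap.charpoly_toMatrix A b, h1, Matrix.charpoly_diagonal,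
    Polynomial.roots_prod _ _ (Finset.prod_ne_zero_iff.2 fun i _ => Polynomial.X_sub_C_ne_zero _)]
  simp only [Polynomial.roots_X_sub_C]
  rw [Multiset.map_map, Multiset.bind_singleton]
  rfl

/-- The weights are determined. -/
theorem HasWt.unique {A : Module.End K V} {s s' : Multiset ℚ} (h : HasWt A s) (h' : HasWt A s') :
    s = s' := by
  obtain ⟨κ, hκ, b, w, hb, hw⟩ := h
  obtain ⟨κ', hκ', b', w', hb', hw'⟩ := h'
  have h1 := charpoly_wt hb
  have h2 := charpoly_wt hb'
  rw [h1, hw, hw'] at h2
  exact Multiset.map_injective (Rat.cast_injective (α := K)) h2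

/-- **The weights are symmetric.** -/
theorem HasWt.symm {A : Module.End K V} {B : V →ₗ[K] V →ₗ[K] K}
    (hnd : ∀ x, (∀ y, B x y = 0) → x = 0) (hsy : ∀ x y, B x y = -B y x) {m : ℚ}
    (hA : ∀ x y, B (A x) y + B x (A y) = (m : K) * B x y) {s : Multiset ℚ} (h : HasWt A s) :
    s.map (fun z => m - z) = s := by
  classical
  refine HasWt.unique (A := A) ?_ h
  obtain ⟨κ, hκ, b, w, hb, hw⟩ := h
  have hB : LinearMap.BilinForm.Nondegenerate B := by
    refine ⟨fun x hx => hnd x fun y => hx y, fun x hx => hnd x fun y => ?_⟩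
    rw [hsy, hx y, neg_zero]
  refine ⟨κ, hκ, LinearMap.BilinForm.dualBasis B hB b, fun k => m - w k, fun k => ?_, ?_⟩
  · rw [← sub_eq_zero]
    refine hnd _ fun y => ?_
    have h1 : B (A (LinearMap.BilinForm.dualBasis B hB b k) -
        ((m - w k : ℚ) : K) • LinearMap.BilinForm.dualBasis B hB b k) = 0 := b.ext fun j => by
      have h2 := hA (LinearMap.BilinForm.dualBasis B hB b k) (b j)
      have h3 := LinearMap.BilinForm.apply_dualBasis_left hB b k j
      rw [map_sub, map_smul, LinearMap.sub_apply, LinearMap.smul_apply, LinearMap.zero_apply,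
        smul_eq_mul]
      rw [hb, map_smul, smul_eq_mul, h3] at h2
      rw [h3]
      by_cases hj : j = k
      · subst hj
        rw [if_pos rfl] at h2 ⊢
        push_cast
        linear_combination h2
      · rw [if_neg hj] at h2 ⊢
        linear_combination h2
    rw [h1, LinearMap.zero_apply]
  · rw [← hw, Multiset.map_map]
    rfl

theorem gaps_eq {κ : Type} [Fintype κ] {g : κ → ℚ} {s : Multiset ℚ}
    (hg : (univ : Finset κ).val.map g = s) (c : ℚ)
    [DecidablePred fun x : κ × κ => (g x.1 : K) = (g x.2 : K) + (c : K)] :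
    Fintype.card {x : κ × κ // (g x.1 : K) = (g x.2 : K) + (c : K)} = gaps s c := by
  classical
  rw [← hg, gaps, Fintype.card_subtype, Finset.card_def, Finset.filter_val,
    ← Finset.univ_product_univ, Finset.product_val]
  have h1 : ∀ x y : Multiset κ, x.map g ×ˢ y.map g = (x ×ˢ y).map (Prod.map g g) := by
    intro x y
    induction x using Multiset.induction_on with
    | empty => rw [Multiset.map_zero, Multiset.zero_product, Multiset.zero_product,
        Multiset.map_zero]
    | cons a x ih =>
      rw [Multiset.map_cons, Multiset.cons_product, Multiset.cons_product, Multiset.map_add, ih,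
        Multiset.map_map, Multiset.map_map]
      rfl
  rw [h1, Multiset.countP_map]
  congr 1
  refine Multiset.filter_congr fun x _ => ?_
  simp only [Prod.map_fst, Prod.map_snd]
  constructor
  · intro h
    have : ((g x.1 : ℚ) : K) = ((g x.2 + c : ℚ) : K) := by rw [h]; push_cast; rfl
    exact Rat.cast_injective this
  · intro h
    rw [h]
    push_cast
    rfl

/-- the number of the gaps in terms of sums -/
theorem card_sum {κ : Type} [Fintype κ] {g : κ → ℚ} {s : Multiset ℚ}
    (hg : (univ : Finset κ).val.map g = s) {m : ℚ} (hm : s.map (fun z => m - z) = s) (c : ℚ)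
    [DecidablePred fun x : κ × κ => g x.1 + g x.2 = m + c] :
    Fintype.card {x : κ × κ // g x.1 + g x.2 = m + c} = gaps s c := by
  classical
  have hg' : (univ : Finset κ).val.map (fun k => m - g k) = s := by
    rw [← hm, ← hg, Multiset.map_map]
    rfl
  have e : gaps s c = (((univ : Finset κ).val.map g) ×ˢ
      ((univ : Finset κ).val.map (fun k => m - g k))).countP fun x => x.1 = x.2 + c := by
    rw [hg, hg']
    rfl
  rw [e, Fintype.card_subtype, Finset.card_def, Finset.filter_val,
    ← Finset.univ_product_univ, Finset.product_val]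
  have h1 : ∀ x y : Multiset κ, x.map g ×ˢ y.map (fun k => m - g k) =
      (x ×ˢ y).map (Prod.map g (fun k => m - g k)) := by
    intro x y
    induction x using Multiset.induction_on with
    | empty => rw [Multiset.map_zero, Multiset.zero_product, Multiset.zero_product,
        Multiset.map_zero]
    | cons a x ih =>
      rw [Multiset.map_cons, Multiset.cons_product, Multiset.cons_product, Multiset.map_add, ih,
        Multiset.map_map, Multiset.map_map]
      rfl
  rw [h1, Multiset.countP_map]
  congr 1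
  refine Multiset.filter_congr fun x _ => ?_
  simp only [Prod.map_fst, Prod.map_snd]
  constructor <;> intro h <;> linarith

/-- at least one half of the ordered pairs -/
theorem half_le {κ : Type} [Fintype κ] [LinearOrder κ] (P : κ × κ → Prop) [DecidablePred P]
    (hP : ∀ x, P x → P x.swap) :
    Fintype.card {x : κ × κ // P x} ≤ 2 * Fintype.card {x : κ × κ // P x ∧ x.1 ≤ x.2} := by
  have h1 : (univ.filter (fun x : κ × κ => P x) : Finset (κ × κ)) ⊆
      (univ.filter fun x : κ × κ => P x ∧ x.1 ≤ x.2) ∪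
        (univ.filter fun x : κ × κ => P x ∧ x.1 ≤ x.2).image Prod.swap := by
    intro x hx
    rw [Finset.mem_filter] at hx
    rcases le_total x.1 x.2 with h | h
    · exact Finset.mem_union_left _ (Finset.mem_filter.2 ⟨mem_univ _, hx.2, h⟩)
    · exact Finset.mem_union_right _ (Finset.mem_image.2 ⟨x.swap,
        Finset.mem_filter.2 ⟨mem_univ _, hP _ hx.2, h⟩, Prod.swap_swap x⟩)
  have h2 := (Finset.card_le_card h1).trans (Finset.card_union_le _ _)
  have h3 := Finset.card_image_le (s := univ.filter fun x : κ × κ => P x ∧ x.1 ≤ x.2)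
    (f := Prod.swap)
  have e1 : Fintype.card {x : κ × κ // P x} = (univ.filter (fun x : κ × κ => P x)).card :=
    Fintype.card_subtype _
  have e2 : Fintype.card {x : κ × κ // P x ∧ x.1 ≤ x.2} =
    (univ.filter fun x : κ × κ => P x ∧ x.1 ≤ x.2).card := Fintype.card_subtype _
  rw [e1, e2]
  omega

end lin

variable {K : Type} [Field K] [CharZero K] {Γ : Type} [Group Γ] {ι : Type}
  {N : ι → FRep K Γ} {t t' : ι} (o : FulS N t)

include o in
/-- **The criterion with weights.** -/
theorem good_of_gapQ {J : ∀ i, (N i).V →ₗ[K] (N i).V} (hJG : J ∈ GG N) {a : ι}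
    {s s' : Multiset ℚ} (hs : HasWt (J t) s) (hs' : HasWt (J a) s') {δ : ℚ}
    (hg : 2 * gaps s' δ < gaps s δ) : Good N t a := by
  classical
  have hs0 := hs
  obtain ⟨κ, hκ, b, w, hJ, hw⟩ := hs
  obtain ⟨κ', hκ', b', w', hJ', hw'⟩ := hs'
  obtain ⟨α, hα⟩ := o.der hJG
  have hk : Nonempty κ := by
    by_contra hcon
    rw [not_nonempty_iff] at hcon
    apply o.pq
    rw [← b.sum_repr o.p, Finset.univ_eq_empty, Finset.sum_empty, map_zero,
      LinearMap.zero_apply]
  obtain ⟨k⟩ := hk
  obtain ⟨l, hl⟩ := exists_pair o.nd b k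
  have hαm := wt_sum o.toFrm hα hJ hl
  obtain ⟨m, hm⟩ : ∃ m : ℚ, m = w k + w l := ⟨_, rfl⟩
  rw [← hm] at hαm
  rw [hαm] at hα
  have hsym := HasWt.symm o.nd o.sy hα hs0
  have hcard := card_sum hw hsym δ
  let e := Fintype.equivFin κ
  let _ : LinearOrder κ := LinearOrder.lift' e e.injective
  have hhalf := half_le (fun x : κ × κ => w x.1 + w x.2 = m + δ) (fun x hx => by
    change w x.2 + w x.1 = m + δ
    rw [add_comm]
    exact hx)
  rw [hcard] at hhalf
  let f : {x : κ × κ // w x.1 + w x.2 = m + δ ∧ x.1 ≤ x.2} → κ × κ := fun x => x.1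
  have hf : Function.Injective f := Subtype.val_injective
  have hsw : ∀ x y, f y = (f x).swap → y = x := by
    intro x y h
    have hy : y.1 = x.1.swap := h
    have e1 : y.1.1 = x.1.2 := congrArg Prod.fst hy
    have e2 : y.1.2 = x.1.1 := congrArg Prod.snd hy
    have h3 := y.2.2
    rw [e1, e2] at h3
    have h4 := le_antisymm h3 x.2.2
    apply Subtype.ext
    apply Prod.ext
    · rw [e1, h4]
    · rw [e2, h4]
  refine o.good_of_eig hJG b' (fun k => (w' k : K)) hJ' (δ : K)
    (li_oom (b := b) o.nd hf hsw) (fun x => oom_skew o.sy _ _) (fun x => ?_) ?_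
  · -- the eigenvalue
    have hh : (m : K) = ((2 * (m / 2) : ℚ) : K) := by
      congr 1
      ring
    have hc := ctr_mem o.toFrm hJG hα hh
    have h1 : J t = ctr (J t) (m / 2) + ((m / 2 : ℚ) : K) • 1 := by rw [ctr, sub_add_cancel]
    rw [h1, br_scalar_left, br_oo hc.1, ctr_b hJ, ctr_b hJ, oo_smul_left, oo_smul_right, ← add_smul]
    congr 1
    have h2 := x.2.1
    have h3 : w (f x).1 - m / 2 + (w (f x).2 - m / 2) = δ := by
      change w x.1.1 - m / 2 + (w x.1.2 - m / 2) = δ
      linarith
    rw [← h3]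
    push_cast
    rfl
  · rw [gaps_eq (K := K) hw' δ]
    omega

include o in
/-- **The criterion with unipotent elements.** -/
theorem good_of_quad {g : Γ} (hg : g ∈ quad (N t)) {a : ι} (hga : g ∈ quad (N a))
    (hr : 2 * finrank K (LinearMap.range ((N a).ρ g - 1 : Module.End K (N a).V)) ^ 2 <
      finrank K (LinearMap.range ((N t).ρ g - 1 : Module.End K (N t).V)) *
        (finrank K (LinearMap.range ((N t).ρ g - 1 : Module.End K (N t).V)) + 1))
    [IsAlgClosed K] : Good N t a := by
  classical
  obtain ⟨J, hJG, hJ⟩ := exists_GGlog N g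
  have hsq : ∀ i, g ∈ quad (N i) → J i = (N i).ρ g - 1 := by
    intro i hi
    have hg2 : ((N i).ρ g - 1) ^ 2 = 0 := by rw [pow_two]; exact hi
    rw [hJ i 2 hg2, lg_two]
  have ht := hsq t hg
  have ha := hsq a hga
  have ht2 : J t * J t = 0 := by rw [ht]; exact hg
  have ha2 : J a * J a = 0 := by rw [ha]; exact hga
  rw [← ht, ← ha] at hr
  have hsk : Skew o.B (J t) := by
    rw [ht]
    exact (quad_mem o.toFrm o.nd hg).1
  by_contra hcon
  have h0 : ∀ D ∈ GG1 N, D a = 0 → D t = 0 := by
    intro D hD ha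
    by_contra ht
    exact hcon ⟨D, hD, ha, ht⟩
  let adJ : ∀ i, (Module.End K (N i).V) →ₗ[K] (Module.End K (N i).V) := fun i => adL (J i)
  let f : GG1 N →ₗ[K] Module.End K (N a).V :=
    adJ a ∘ₗ adJ a ∘ₗ (LinearMap.proj a : (∀ i, (N i).V →ₗ[K] (N i).V) →ₗ[K] _) ∘ₗ
      (GG1 N).subtype
  let g' : GG1 N →ₗ[K] Module.End K (N t).V :=
    adJ t ∘ₗ adJ t ∘ₗ (LinearMap.proj t : (∀ i, (N i).V →ₗ[K] (N i).V) →ₗ[K] _) ∘ₗ
      (GG1 N).subtype
  have hf : ∀ D : GG1 N, f D = br (J a) (br (J a) (D.1 a)) := fun D => rfl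
  have hg' : ∀ D : GG1 N, g' D = br (J t) (br (J t) (D.1 t)) := fun D => rfl
  obtain ⟨Φ, hΦ⟩ := exists_factor f g' fun D hD => by
    have h1 : brk J (brk J D.1) ∈ GG1 N := brk_mem1 hJG (GG_brk hJG (GG1_le D.2))
    exact h0 _ h1 hD
  have hle : LinearMap.range g' ≤ (LinearMap.range f).map Φ := by
    rintro _ ⟨D, rfl⟩
    exact ⟨f D, ⟨D, rfl⟩, hΦ D⟩
  have k1 := Submodule.finrank_mono hle
  have k2 := Submodule.finrank_map_le Φ (LinearMap.range f)
  have hbr : ∀ i, J i * J i = 0 → ∀ X : Module.End K (N i).V,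
      br (J i) (br (J i) X) = (-2 : K) • (J i * X * J i) := by
    intro i hi X
    rw [br, br, mul_sub, sub_mul, ← mul_assoc, ← mul_assoc, hi, zero_mul, mul_assoc X, hi,
      mul_zero]
    module
  -- the upper bound
  let W := LinearMap.range (J a)
  let E : Module.End K W →ₗ[K] Module.End K (N a).V :=
    { toFun := fun ξ => W.subtype ∘ₗ ξ ∘ₗ (J a).rangeRestrict
      map_add' := fun x y => by
        rw [LinearMap.add_comp, LinearMap.comp_add]
      map_smul' := fun c x => by
        rw [LinearMap.smul_comp, LinearMap.comp_smul]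
        rfl }
  have hfE : LinearMap.range f ≤ LinearMap.range E := by
    rintro _ ⟨D, rfl⟩
    refine ⟨(-2 : K) • ((J a).rangeRestrict ∘ₗ D.1 a ∘ₗ W.subtype), ?_⟩
    rw [hf, hbr a ha2]
    rfl
  have k3 := Submodule.finrank_mono hfE
  have k4 : finrank K (LinearMap.range E) ≤ finrank K W ^ 2 := by
    refine (LinearMap.finrank_range_le E).trans ?_
    rw [show finrank K (Module.End K W) = finrank K (W →ₗ[K] W) from rfl, finrank_linearMap,
      pow_two]
  -- the lower bound
  let R := LinearMap.range (J t)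
  let u := Module.finBasis K R
  obtain ⟨Q, hQ⟩ := Submodule.exists_isCompl R
  let b := (u.prod (Module.finBasis K Q)).map (Submodule.prodEquivOfIsCompl R Q hQ)
  have hbu : ∀ i, b (Sum.inl i) = u i := fun i => by
    simp [b]
  let ff : {x : Fin (finrank K R) × Fin (finrank K R) // x.1 ≤ x.2} →
      (Fin (finrank K R) ⊕ Fin (finrank K Q)) × (Fin (finrank K R) ⊕ Fin (finrank K Q)) :=
    fun x => (Sum.inl x.1.1, Sum.inl x.1.2)
  have h1 := li_oom (b := b) o.nd (f := ff)
    (by
      intro x y h
      have e1 : x.1.1 = y.1.1 := Sum.inl_injective (congrArg Prod.fst h)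
      have e2 : x.1.2 = y.1.2 := Sum.inl_injective (congrArg Prod.snd h)
      exact Subtype.ext (Prod.ext e1 e2))
    (by
      intro x y h
      have e1 : y.1.1 = x.1.2 := Sum.inl_injective (congrArg Prod.fst h)
      have e2 : y.1.2 = x.1.1 := Sum.inl_injective (congrArg Prod.snd h)
      have h3 := y.2
      rw [e1, e2] at h3
      have h4 := le_antisymm h3 x.2
      apply Subtype.ext
      apply Prod.ext
      · rw [e1, h4]
      · rw [e2, h4])
  have hmem : ∀ x, oo o.B (-1) (b (ff x).1) (b (ff x).2) ∈ LinearMap.range g' := by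
    intro x
    obtain ⟨x1, hx1⟩ := (u x.1.1).2
    obtain ⟨x2, hx2⟩ := (u x.1.2).2
    obtain ⟨D, hD, hDt⟩ := o.full x1 x2
    have e1 : br (J t) (br (J t) (oo o.B (-1) x1 x2)) = (2 : K) • oo o.B (-1) (J t x1) (J t x2) := by
      have e0 : ∀ y, J t (J t y) = 0 := fun y => by
        rw [← Module.End.mul_apply, ht2, LinearMap.zero_apply]
      rw [br_oo hsk, br_add, br_oo hsk, br_oo hsk, e0, e0, oo_zero_left, oo_zero_right, zero_add,
        add_zero, two_smul]
    have e2 : g' ⟨D, hD⟩ = (2 : K) • oo o.B (-1) (b (ff x).1) (b (ff x).2) := by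
      rw [hg']
      change br (J t) (br (J t) (D t)) = _
      rw [hDt, e1]
      change _ = (2 : K) • oo o.B (-1) (b (Sum.inl x.1.1)) (b (Sum.inl x.1.2))
      rw [hbu, hbu, hx1, hx2]
    have e3 := (LinearMap.range g').smul_mem (2 : K)⁻¹ ⟨⟨D, hD⟩, e2⟩
    rwa [smul_smul, inv_mul_cancel₀ two_ne_zero, one_smul] at e3
  have h2 : LinearIndependent K (fun x => (⟨_, hmem x⟩ : LinearMap.range g')) := by
    refine LinearIndependent.of_comp (LinearMap.range g').subtype ?_
    exact h1
  have k5 := h2.fintype_card_le_finrank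
  have k6 : 2 * Fintype.card {x : Fin (finrank K R) × Fin (finrank K R) // x.1 ≤ x.2} =
      finrank K R * (finrank K R + 1) := by
    rw [card_le, mul_comm, Finset.sum_range_id_mul_two, Nat.add_sub_cancel, mul_comm]
  change 2 * finrank K W ^ 2 < finrank K R * (finrank K R + 1) at hr
  omega

end

end Run7.h552.SF
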