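import Pool.Agent.Run7.h552.SF.PDefs
import Pool.Agent.Run7.h552.SF.App
import Pool.Agent.Run7.h552.CT.Twr
import Pool.Agent.V11219.SstStd

/-!
# From the definitions for varieties to representations
-/

set_option autoImplicit false
set_option linter.unusedSectionVars false

open CategoryTheory AlgebraicGeometry Finset Function

universe u

namespace Run7.h552.SF

open Pool.Agent Pool.Agent.H914 Pool.Agent.H914.VarClass Pool.Agent.H914.VarClass.Obj
  Pool.Agent.H914.WeilCohomology Pool.Agent.H281R3.HT Pool.Agent.W552 Pool.Agent.TH125.Gal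
  Pool.Agent.Y127 Pool.Agent.Y127.G Pool.Agent.Y95.ZT Run7.h552.CT

section restrict

variable {K : Type} [Field K] {A : Type} [Ring A] [Algebra K A] [FiniteDimensional K A]
  {Γ : Type} [Group Γ] {ρ : Γ →* (A ≃ₐ[K] A)} {T : Submodule K A} {ρT : Γ →* (T →ₗ[K] T)}
  (hρ : ∀ g x, (ρT g x : A) = ρ g x)

include hρ

theorem dif_coe (g : Γ) (x : T) : ((ρT g - 1 : Module.End K T) x : A) = V11219.Min.dif ρ g x := by
  rw [LinearMap.sub_apply, Module.End.one_apply, Submodule.coe_sub, hρ, V11219.Min.dif,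
    LinearMap.sub_apply]
  rfl

theorem range_dif (g : Γ) :
    Module.finrank K (LinearMap.range (ρT g - 1 : Module.End K T)) = P.rankOn ρ T g := by
  have h1 : (LinearMap.range (ρT g - 1 : Module.End K T)).map T.subtype =
      T.map (V11219.Min.dif ρ g) := by
    ext y
    constructor
    · rintro ⟨_, ⟨x, rfl⟩, rfl⟩
      exact ⟨x, x.2, (dif_coe hρ g x).symm⟩
    · rintro ⟨x, hx, rfl⟩
      exact ⟨(ρT g - 1 : Module.End K T) ⟨x, hx⟩, ⟨⟨x, hx⟩, rfl⟩, dif_coe hρ g ⟨x, hx⟩⟩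
  rw [P.rankOn, ← h1]
  exact (LinearEquiv.finrank_eq (Submodule.equivMapOfInjective T.subtype
    T.injective_subtype _))

theorem slopes_of {v : Additive Kˣ →+ ℚ} {F : Γ} {s : Multiset ℚ} (h : P.SlopesOn v F ρ T s) :
    slopes v (ρT F) = s := by
  obtain ⟨hU, h⟩ := h
  rw [← h]
  congr 1
  apply LinearMap.ext
  intro x
  apply Subtype.ext
  rw [hρ]
  rfl

theorem quad_of {g : Γ} (h : V11219.Min.Quad T ρ g) : g ∈ quad (⟨T, ρT⟩ : FRep K Γ) := by
  apply LinearMap.ext
  intro x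
  apply Subtype.ext
  have h4 := h x x.2
  rw [Module.End.mul_apply, LinearMap.sub_apply, LinearMap.sub_apply, Module.End.one_apply,
    Module.End.one_apply]
  change ((ρT g (ρT g x - x) - (ρT g x - x) : T) : A) = 0
  rw [Submodule.coe_sub, hρ, Submodule.coe_sub, hρ, h4, sub_self]

end restrict

section small

variable {K : Type} [Field K] {A : Type} [Ring A] [Algebra K A] [FiniteDimensional K A]
  {B : Type} [Ring B] [Algebra K B] [FiniteDimensional K B] {Γ : Type} [Group Γ]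

theorem small_of {ρ : Γ →* (A ≃ₐ[K] A)} {T : Submodule K A} {ρT : Γ →* (T →ₗ[K] T)}
    (hρ : ∀ g x, (ρT g x : A) = ρ g x) {ρ' : Γ →* (B ≃ₐ[K] B)} {U : Submodule K B}
    (hU : ∀ g, ∀ x ∈ U, ρ' g x ∈ U) (h : P.SmallFor ρ T ρ' U) :
    SmallRel (⟨T, ρT⟩ : FRep K Γ) (Y95.ZT.subRep ρ' U hU) := by
  let ρU : Γ →* (U →ₗ[K] U) := (Y95.ZT.subRep ρ' U hU).ρ
  have hρ' : ∀ g (x : U), ((ρU g x : U) : B) = ρ' g x := fun g x => rfl
  have key : ∀ s : K, Y127.G.FormOn ρ' U s → HasForm s (Y95.ZT.subRep ρ' U hU) := by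
    rintro s ⟨μ, B, h3, h4, h5⟩
    refine ⟨μ, B.domRestrict₁₂ U U, fun (x y : U) => h3 x x.2 y y.2, fun (x : U) hx => ?_,
      fun g (x y : U) => h5 g x x.2 y y.2⟩
    exact Subtype.ext (h4 x x.2 fun y hy => hx ⟨y, hy⟩)
  rcases h with ⟨v, F, s, s', δ, h1, h2, h3⟩ | ⟨g, h1, h2, h3⟩ | ⟨h1, h2⟩ | ⟨h1, h2⟩ | h1
  · refine Or.inl (Or.inl ⟨v, F, δ, ?_⟩)
    have e1 := slopes_of hρ h1
    have e2 := slopes_of (ρT := ρU) hρ' h2
    have e1' : slopes v ((⟨T, ρT⟩ : FRep K Γ).ρ F) = s := e1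
    rw [e1']
    have e2' : slopes v ((Y95.ZT.subRep ρ' U hU).ρ F) = s' := e2
    rw [e2']
    exact h3
  · refine Or.inl (Or.inr (Or.inr (Or.inl ⟨g, quad_of hρ h1, quad_of (ρT := ρU) hρ' h2,
      ?_⟩)))
    have e1 := range_dif hρ g
    have e2 := range_dif (ρT := ρU) hρ' g
    rw [← e1, ← e2] at h3
    exact h3
  · exact Or.inr (Or.inl ⟨key _ h1, h2⟩)
  · exact Or.inr (Or.inr (Or.inl ⟨key _ h1, h2⟩))
  · exact Or.inr (Or.inr (Or.inr h1))

end small

variable {k : Type u} [Field k] {𝒱 : VarClass k} {ops : CycleOps 𝒱}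
  {W : WeilCohomology.{u, 0} ops} {Γ : Type} [Group Γ] {χ : Γ →* W.Kˣ}

/-- Defects. -/
theorem defect_conv {X : GVar W Γ} (hG : GaloisType χ X) {N N' : Set Γ} (hN : N ⊆ N') {g : Γ}
    {d : ℕ} (hd : V11219.Min.IsDefect (transcendental W X.X) X.act N g d) :
    V11219.Sm.IsDefect (rhoT (isGalois hG)) N' g d := by
  have h1 : V11219.Quad.GDefect (rhoT (isGalois hG)) N g d :=
    V11219.Quad.gdefect_of (P := ⟨X.X, 0⟩) (isGalois hG) hd
  rcases h1 with h1 | ⟨g', hg', h2⟩
  · exact Or.inl h1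
  · exact Or.inr ⟨g', hN hg', h2⟩

theorem smallDefects_conv {X : GVar W Γ} (hG : GaloisType χ X) {N N' : Set Γ} (hN : N ⊆ N')
    (h : V11219.Min.SmallDefects (transcendental W X.X) X.act N) :
    V11219.Gk.SmallDefects (rhoT (isGalois hG)) N' := by
  rcases h with ⟨g, hg, h1⟩ | ⟨⟨g, hg, h1⟩, h2⟩
  · refine Or.inl ⟨g, hN hg, ?_⟩
    rcases h1 with h1 | h1
    · left
      intro p hp
      obtain ⟨d, hd, hpd⟩ := h1 p hp
      exact ⟨d, defect_conv hG hN hd, hpd⟩
    · exact Or.inr (defect_conv hG hN h1)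
  · refine Or.inr ⟨⟨g, hN hg, fun U hU => ?_⟩, fun p hp => ?_⟩
    · have h3 : ∀ h' : Γ, ∀ x ∈ U.map (transcendental W X.X).subtype,
          X.act (h' * g * h'⁻¹) x ∈ U.map (transcendental W X.X).subtype := by
        rintro h' _ ⟨x, hx, rfl⟩
        exact ⟨rhoT (isGalois hG) (h' * g * h'⁻¹) x, hU h' x hx, rfl⟩
      rcases h1 (U.map (transcendental W X.X).subtype) (Submodule.map_subtype_le _ _) h3 with
        h4 | h4
      · left
        rw [eq_bot_iff]
        intro x hx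
        have h5 : (x : W.H X.X) ∈ U.map (transcendental W X.X).subtype := ⟨x, hx, rfl⟩
        rw [h4, Submodule.mem_bot] at h5
        exact (Submodule.mem_bot _).2 (Subtype.ext h5)
      · right
        rw [eq_top_iff]
        intro x _
        have h5 : (x : W.H X.X) ∈ U.map (transcendental W X.X).subtype := by
          rw [h4]
          exact x.2
        obtain ⟨y, hy, hyx⟩ := h5
        have h6 : y = x := Subtype.ext hyx
        rwa [h6] at hy
    · obtain ⟨g, hg, d, hd, hpd⟩ := h2 p hp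
      exact ⟨g, hN hg, d, defect_conv hG hN hd, hpd⟩

/-- the local condition for the transcendental part -/
theorem bigLoc_of {X : GVar W Γ} (hG : GaloisType χ X)
    (h : P.LocalType X.act (transcendental W X.X)) : BigLoc (trRep hG) := by
  have hρ : ∀ g (x : transcendental W X.X), ((rhoT (isGalois hG) g x : transcendental W X.X) :
    W.H X.X) = X.act g x := fun g x => rfl
  rcases h with ⟨v, F, s, h1, h2⟩ | h
  · left
    refine ⟨v, F, ?_⟩
    have e1 : slopes v ((trRep hG).ρ F) = s := slopes_of hρ h1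
    rw [e1]
    rcases h2 with h2 | ⟨s', h', c, h3, h4⟩
    · exact Or.inl h2
    · refine Or.inr ⟨s', h', c, h3, ?_⟩
      rcases h4 with h4 | ⟨q, h5, h6, h7⟩
      · exact Or.inl h4
      · exact Or.inr ⟨q, h5, h6, h7.imp_right (not_tenRep hG)⟩
  · right
    right
    exact smallDefects_conv hG (fun g hg => quad_of (ρT := rhoT (isGalois hG)) hρ hg) h

/-- The varieties give representations of symplectic type. -/
theorem exists_sRep {X : GVar W Γ} (hG : GaloisType χ X) (hDX : HomEqNum W X.X)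
    (hodd : Odd X.X.dim) (hmid : transcendental W X.X ≤ W.gr X.X X.X.dim)
    (hirr : IrredAct X.act (transcendental W X.X)) (hl : BigLoc (trRep hG)) :
    ∃ M : SRep (trRep hG), M.B = rform W X.X (transcendental W X.X) :=
  ⟨{ B := rform W X.X (transcendental W X.X)
     μ := χ ^ X.X.dim
     eqv := fun g x y => tr_eqv hG g x y
     sy := fun x y => tr_sk hmid hodd x y
     nd := trans_nondeg hDX
     si := SI_rhoT (P := (⟨X.X, 0⟩ : Polarized 𝒱)) (isGalois hG) hirr
     loc := hl }, rfl⟩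

end Run7.h552.SF
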