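import Pool.Agent.Run7.h552.CT.Gou

/-!
# Extremal elements of symplectic Lie algebras; members which are not isomorphic
-/

set_option autoImplicit false
set_option linter.unusedSectionVars false

namespace Run7.h552.SF

open Module Finset Function Pool.Agent.TH125.Gal Pool.Agent.Y127.G Pool.Agent.Y127.C
  Pool.Agent.Y95.ZT Run7.h552.CT

section lin

universe u v

variable {K : Type u} [Field K] [CharZero K] {V : Type v} [AddCommGroup V] [Module K V]
  {B : V →ₗ[K] V →ₗ[K] K}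

/-- **Extremal elements have rank one.** -/
theorem extremal (hsy : ∀ x y, B x y = -B y x) (hnd : ∀ x, (∀ y, B x y = 0) → x = 0)
    {X : Module.End K V} (hX : Skew B X) (hX0 : X ≠ 0)
    (h : ∀ y, ∃ c : K, br X (br X (oo B (-1) y y)) = c • X) :
    ∃ (v : V) (c : K), v ≠ 0 ∧ c ≠ 0 ∧ X = c • oo B (-1) v v := by
  obtain ⟨y, hy⟩ : ∃ y, B (X y) y ≠ 0 := by
    by_contra hcon
    push Not at hcon
    apply hX0
    apply LinearMap.ext
    intro z
    rw [LinearMap.zero_apply]
    refine hnd _ fun w => ?_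
    have h1 := hcon (z + w)
    simp only [map_add, LinearMap.add_apply, hcon z, hcon w] at h1
    have h2 := hX z w
    rw [hsy z (X w)] at h2
    have h3 : (2 : K) * B (X z) w = 0 := by linear_combination h1 + h2
    exact (mul_eq_zero.1 h3).resolve_left two_ne_zero
  have h44 : (4 : K) ≠ 0 := by norm_num
  have h33 : (3 : K) ≠ 0 := by norm_num
  set f := B (X y) y with hf
  obtain ⟨c, hc⟩ := h y
  have h1 : br X (br X (oo B (-1) y y)) =
      (2 : K) • (oo B (-1) (X (X y)) y + oo B (-1) (X y) (X y)) := by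
    rw [br_oom hX, br_smul, br_oo hX]
  rw [h1] at hc
  have hXXy : B (X (X y)) y = 0 := by
    have h2 := hX (X y) y
    rw [alt_self hsy, add_zero] at h2
    exact h2
  have hXy0 : X y ≠ 0 := by
    intro h0
    apply hy
    rw [hf, h0, map_zero, LinearMap.zero_apply]
  have hc4 : c = 4 * f := by
    have h2 := LinearMap.congr_fun hc y
    rw [LinearMap.smul_apply, LinearMap.add_apply, oom_apply, oom_self, alt_self hsy, zero_smul,
      zero_add, hXXy, zero_smul, zero_add, ← hf, LinearMap.smul_apply, smul_smul] at h2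
    have h3 := smul_left_injective K hXy0 h2
    linear_combination -h3
  have hyXy : B y (X y) = -f := by rw [hsy]
  have hX2 : X (X y) = 0 := by
    set g := B (X (X y)) (X y) with hg
    have h2 := LinearMap.congr_fun hc (X y)
    rw [LinearMap.smul_apply, LinearMap.add_apply, oom_apply, oom_self, alt_self hsy, hyXy,
      ← hg, mul_zero, zero_smul, add_zero, LinearMap.smul_apply, hc4] at h2
    -- 2 (-f X²y + g y) = 4 f X² y
    have h3 : g • y = (3 * f) • X (X y) := by
      have h4 : (2 : K) • (g • y) = (2 : K) • ((3 * f) • X (X y)) := by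
        have h5 : (2 : K) • (g • y) = (2 : K) • (-f • X (X y) + g • y) + (2 * f) • X (X y) := by
          module
        rw [h5, h2]
        module
      exact smul_right_injective _ (two_ne_zero (α := K)) h4
    have h4 := congrArg (fun z => B z (X y)) h3
    simp only [map_smul, LinearMap.smul_apply, smul_eq_mul] at h4
    rw [hyXy, ← hg] at h4
    have h5 : (4 * f) * g = 0 := by linear_combination -h4
    have h6 : g = 0 := (mul_eq_zero.1 h5).resolve_left (mul_ne_zero h44 hy)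
    rw [h6, zero_smul] at h3
    exact (smul_eq_zero.1 h3.symm).resolve_left (mul_ne_zero h33 hy)
  rw [hX2, oo_zero_left, zero_add, hc4] at hc
  refine ⟨X y, (2 * f)⁻¹, hXy0, inv_ne_zero (mul_ne_zero two_ne_zero hy), ?_⟩
  have h2 : X = (4 * f)⁻¹ • ((4 * f) • X) := by
    rw [smul_smul, inv_mul_cancel₀ (mul_ne_zero h44 hy), one_smul]
  conv_lhs => rw [h2, ← hc]
  rw [smul_smul]
  congr 1
  have h3 : (2 : K) ≠ 0 := two_ne_zero
  have h4 : (4 : K) ≠ 0 := h44
  field_simp
  norm_num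

/-- the square of the adjoint operator of an operator of rank one -/
theorem br_br_oom (hsy : ∀ x y, B x y = -B y x) (p : V) {Y : Module.End K V} (hY : Skew B Y) :
    br (oo B (-1) p p) (br (oo B (-1) p p) Y) = (-4 * B p (Y p)) • oo B (-1) p p := by
  have h0 : ∀ X Y : Module.End K V, br X Y = -br Y X := fun X Y => by rw [br, br, neg_sub]
  have h1 : br (oo B (-1) p p) Y = (-2 : K) • oo B (-1) (Y p) p := by
    rw [h0, br_oom hY, ← neg_smul]
  have hp : oo B (-1) p p p = 0 := by rw [oom_self, alt_self hsy, mul_zero, zero_smul]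
  rw [h1, br_smul, br_oo (oom_skew hsy p p), hp, oom_self, oo_zero_right, add_zero,
    oo_smul_left, smul_smul]
  congr 1
  ring

end lin

section good

variable {K : Type} [Field K] [CharZero K] {Γ : Type} [Group Γ] {ι : Type}
  {N : ι → FRep K Γ} {t t' : ι}

/-- **Members of symplectic type which are not isomorphic.** -/
theorem good_of_not_isoS (o : FulS N t) (o' : FulS N t')
    (hiso : ¬IsoUpTo (N t') (N t)) : Good N t t' := by
  by_contra hng
  have h0 : ∀ D ∈ GG1 N, D t' = 0 → D t = 0 := by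
    intro D hD ha
    by_contra ht
    exact hng ⟨D, hD, ha, ht⟩
  have h0' : ∀ D ∈ GG1 N, D t = 0 → D t' = 0 := by
    intro D hD ha
    by_contra ht
    exact hng (o.good_symm o' ⟨D, hD, ha, ht⟩)
  have hlift : ∀ X : Module.End K (N t').V, Skew o'.B X → ∃ D ∈ GG1 N, D t' = X := fun X hX =>
    skew_memS (a := res (GG1 N) t') o'.sy o'.nd (fun x y => o'.full x y) hX
  let f : GG1 N →ₗ[K] Module.End K (N t').V :=
    (LinearMap.proj t' : (∀ i, (N i).V →ₗ[K] (N i).V) →ₗ[K] _) ∘ₗ (GG1 N).subtype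
  let g : GG1 N →ₗ[K] Module.End K (N t).V :=
    (LinearMap.proj t : (∀ i, (N i).V →ₗ[K] (N i).V) →ₗ[K] _) ∘ₗ (GG1 N).subtype
  obtain ⟨Φ, hΦ⟩ := exists_factor f g fun x hx => h0 x.1 x.2 hx
  have hΦ' : ∀ D ∈ GG1 N, Φ (D t') = D t := fun D hD => hΦ ⟨D, hD⟩
  have hΦs : ∀ X, Skew o'.B X → Skew o.B (Φ X) := by
    intro X hX
    obtain ⟨D, hD, rfl⟩ := hlift X hX
    rw [hΦ' D hD]
    exact o.skew hD
  have hΦb : ∀ X Y, Skew o'.B X → Skew o'.B Y → Φ (br X Y) = br (Φ X) (Φ Y) := by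
    intro X Y hX hY
    obtain ⟨D, hD, rfl⟩ := hlift X hX
    obtain ⟨D', hD', rfl⟩ := hlift Y hY
    rw [hΦ' D hD, hΦ' D' hD', ← brk_eq_br, hΦ' _ (brk_mem1 (GG1_le hD) (GG1_le hD')), brk_eq_br]
  -- an operator of rank one
  have hp0 : o'.p ≠ 0 := by
    intro h
    apply o'.pq
    rw [h, map_zero, LinearMap.zero_apply]
  have hpp := oom_skew o'.sy o'.p o'.p
  obtain ⟨v, c, hv, hc0, hΦv⟩ : ∃ (v : (N t).V) (c : K), v ≠ 0 ∧ c ≠ 0 ∧
      Φ (oo o'.B (-1) o'.p o'.p) = c • oo o.B (-1) v v := by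
    obtain ⟨D, hD, hDt⟩ := hlift _ hpp
    refine extremal o.sy o.nd (hΦs _ hpp) ?_ fun y => ?_
    · intro h1
      rw [← hDt, hΦ' D hD] at h1
      have h2 := h0' D hD h1
      rw [hDt] at h2
      exact hp0 (oom_inj o'.sy o'.nd hp0 h2)
    · obtain ⟨D', hD', hDt'⟩ := o.full y y
      have hs := o'.skew hD'
      have hb : Skew o'.B (br (oo o'.B (-1) o'.p o'.p) (D' t')) := by
        rw [← hDt, ← brk_eq_br]
        exact o'.skew (brk_mem1 (GG1_le hD) (GG1_le hD'))
      refine ⟨-4 * o'.B o'.p (D' t' o'.p), ?_⟩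
      rw [← hDt', ← hΦ' D' hD', ← hΦb _ _ hpp hs, ← hΦb _ _ hpp hb, br_br_oom o'.sy _ hs,
        map_smul]
  obtain ⟨ψ, hψ0, hψ, hψu⟩ := exists_psiS o.sy o.nd o'.sy o'.nd hΦs hΦb hc0 hv hp0 hΦv
  have h1 : ∀ γ : Γ, ∃ e : K, (N t).ρ γ⁻¹ ∘ₗ ψ ∘ₗ (N t').ρ γ = e • ψ := by
    intro γ
    refine hψu _ fun X hX x => ?_
    obtain ⟨D, hD, rfl⟩ := hlift X hX
    rw [hΦ' D hD]
    have h2 := hψ (cnj γ D t') (o'.skew (GG1_cnj hD γ)) ((N t').ρ γ x)
    rw [hΦ' _ (GG1_cnj hD γ), cnj_apply, cnj_apply, FRep.inv_left] at h2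
    rw [LinearMap.comp_apply, LinearMap.comp_apply, h2, FRep.inv_left]
    rfl
  choose ε hε using h1
  have hε' : ∀ γ x, ψ ((N t').ρ γ x) = ε γ • (N t).ρ γ (ψ x) := by
    intro γ x
    have h2 := LinearMap.congr_fun (hε γ) x
    rw [LinearMap.comp_apply, LinearMap.comp_apply, LinearMap.smul_apply] at h2
    rw [← map_smul, ← h2, FRep.inv_right]
  apply hiso
  have hker : LinearMap.ker ψ = ⊥ := by
    refine (o'.si ⊤ inferInstance (LinearMap.ker ψ) fun g _ x hx => ?_).resolve_right fun h => ?_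
    · rw [LinearMap.mem_ker] at hx ⊢
      rw [hε', hx, map_zero, smul_zero]
    · exact hψ0 (LinearMap.ker_eq_top.1 h)
  have hne : ∀ γ, ε γ ≠ 0 := by
    intro γ h0
    apply hψ0
    apply LinearMap.ext
    intro x
    have h1 := hε' γ ((N t').ρ γ⁻¹ x)
    rw [FRep.inv_right, h0, zero_smul] at h1
    rw [h1, LinearMap.zero_apply]
  have hrange : LinearMap.range ψ = ⊤ := by
    refine (o.si ⊤ inferInstance (LinearMap.range ψ) ?_).resolve_left fun h => ?_
    · rintro g - _ ⟨x, rfl⟩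
      refine ⟨(ε g)⁻¹ • (N t').ρ g x, ?_⟩
      rw [map_smul, hε', smul_smul, inv_mul_cancel₀ (hne g), one_smul]
    · exact hψ0 (LinearMap.range_eq_bot.1 h)
  exact ⟨LinearEquiv.ofBijective ψ ⟨LinearMap.ker_eq_bot.1 hker, LinearMap.range_eq_top.1 hrange⟩,
    ε, hε'⟩

end good

end Run7.h552.SF
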