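import Pool.Agent.Run7.h552.SF.Iso
import Pool.Agent.W363.OT.Cart

/-!
# Lie algebras with an element of Calabi-Yau type, over algebraically closed fields
-/

set_option autoImplicit false
set_option linter.unusedSectionVars false

namespace Run7.h552.SF

open Module Finset Run7.h853.Cy Pool.Agent.Y127.G Pool.Agent.TH125.Gal Pool.Agent.Y95.ZT
  Run7.h552.CT

section tr

variable {K : Type} [Field K] [CharZero K] {T : Type} [AddCommGroup T] [Module K T]
  [FiniteDimensional K T] {G : Type} [Group G] {ρ : G →* (T →ₗ[K] T)}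
  {L : Submodule K (Module.End K T)}

/-- **The trace form is nondegenerate.** -/
theorem tr_of_SIA [IsAlgClosed K] (hSI : SI ρ)
    (hconj : ∀ γ : G, ∀ A ∈ L, (ρ γ * A * ρ γ⁻¹ : Module.End K T) ∈ L)
    (hbr : ∀ A ∈ L, ∀ A' ∈ L, A * A' - A' * A ∈ L)
    (htr0 : ∀ A ∈ L, LinearMap.trace K T A = 0) :
    ∀ X ∈ L, (∀ Y ∈ L, LinearMap.trace K T (X * Y) = 0) → X = 0 := by
  let 𝔞 : Submodule K (Module.End K T) :=
    { carrier := {X | X ∈ L ∧ ∀ Y ∈ L, LinearMap.trace K T (X * Y) = 0}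
      zero_mem' := ⟨L.zero_mem, fun Y _ => by rw [zero_mul, map_zero]⟩
      add_mem' := fun {X X'} hX hX' => ⟨L.add_mem hX.1 hX'.1, fun Y hY => by
        rw [add_mul, map_add, hX.2 Y hY, hX'.2 Y hY, add_zero]⟩
      smul_mem' := fun c X hX => ⟨L.smul_mem c hX.1, fun Y hY => by
        rw [smul_mul_assoc, map_smul, hX.2 Y hY, smul_zero]⟩ }
  have hρ : ∀ γ : G, ρ γ⁻¹ * ρ γ = 1 := fun γ => by rw [← map_mul, inv_mul_cancel, map_one]
  have h1 : 𝔞 = ⊥ := by
    refine Pool.Agent.W363.OT.Cart.main K T G ρ hSI 𝔞 ?_ ?_ ?_ ?_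
    · rintro x ⟨hx, hxt⟩ y ⟨hy, hyt⟩
      refine ⟨hbr x hx y hy, fun Y hY => ?_⟩
      have e1 : (x * y - y * x) * Y = x * (y * Y) - y * (x * Y) := by noncomm_ring
      have e2 : LinearMap.trace K T (x * (y * Y)) = LinearMap.trace K T (y * (Y * x)) := by
        rw [LinearMap.trace_mul_comm, mul_assoc]
      rw [e1, map_sub, e2, ← map_sub, ← mul_sub]
      have h2 := hyt _ (hbr Y hY x hx)
      exact h2
    · rintro g x ⟨hx, hxt⟩
      refine ⟨hconj g x hx, fun Y hY => ?_⟩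
      have h2 := hxt _ (hconj g⁻¹ Y hY)
      rw [inv_inv] at h2
      have e1 : ρ g * x * ρ g⁻¹ * Y = ρ g * (x * (ρ g⁻¹ * Y)) := by noncomm_ring
      rw [e1, LinearMap.trace_mul_comm, mul_assoc]
      exact h2
    · exact fun x hx => htr0 x hx.1
    · exact fun x hx y hy => hx.2 y hy.1
  intro X hX hXY
  have h2 : X ∈ 𝔞 := ⟨hX, hXY⟩
  rw [h1, Submodule.mem_bot] at h2
  exact h2

variable {B : T →ₗ[K] T →ₗ[K] K} {κ : Type} [Fintype κ] {b : Basis κ K T} {c : κ → ℤ}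
  {D : Module.End K T} {kp km : κ}

/-- **The whole Lie algebra.** -/
theorem full_cyA [IsAlgClosed K] {q : ℕ} (hSI : SI ρ) (hsy : ∀ x y, B x y = -B y x)
    (hnd : ∀ x, (∀ y, B x y = 0) → x = 0)
    (hD : ∀ k, D (b k) = (c k : K) • b k) (hc : CyB c kp km)
    (hdim : finrank K T = 2 * q + 2) (hq : q ∉ ({1, 3, 6, 9, 15, 27} : Finset ℕ))
    (hT : q = 0 ∨ ¬TenRep ρ) (hDL : D ∈ L) (hbr : ∀ A ∈ L, ∀ A' ∈ L, A * A' - A' * A ∈ L)
    (hsk : ∀ A ∈ L, Skew B A)
    (hconj : ∀ γ : G, ∀ A ∈ L, (ρ γ * A * ρ γ⁻¹ : Module.End K T) ∈ L) (x y : T) :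
    oo B (-1) x y ∈ L := by
  have hirr := irr_of_SI hSI hconj hD hc hDL
  have htr := tr_of_SIA hSI hconj hbr fun A hA => trace_skewS hsy hnd (hsk A hA)
  rcases core_alt hD hc hDL hbr hsk hsy hnd hirr htr with h | dt
  · exact h x y
  exfalso
  rcases Nat.eq_zero_or_pos q with hq0 | hq0
  · exact dt_zero dt hc (by rw [hdim, hq0])
  replace hT := hT.resolve_left hq0.ne'
  have hdim' := dt.dims.2.1
  have hqf : finrank K (ES D 1) = q := by omega
  obtain ⟨z, hzL, hz⟩ := dt.exists_z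
  obtain ⟨hz0, hzc⟩ := dt.z_prop hzL hz
  by_cases hs : ∃ s : K, z = s • D
  · obtain ⟨s, hs⟩ := hs
    apply hq
    have h2 := dt.list (s := s) fun Y hY => by
      rw [← hz Y hY, hs, smul_mul_assoc, map_smul, smul_eq_mul]
    rwa [hqf] at h2
  push Not at hs
  obtain ⟨K1, R1, Km, Rm, hsp⟩ := dt.exists_split hz0 hzc hs
  obtain ⟨x0, y0, r0, hsl⟩ := dt.exists_sl hsp
  -- the ideal is stable
  have hst : ∀ γ : G, ∀ a ∈ idl x0 y0, ρ γ * a * ρ γ⁻¹ ∈ idl x0 y0 := by
    intro γ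
    have hS : finrank K ((idl x0 y0).comap (conjE ρ γ).toLinearMap) = 3 := by
      rw [← hsl.finrank_idl dt]
      have h1 := LinearEquiv.finrank_eq ((conjE ρ γ).submoduleMap
        ((idl x0 y0).comap (conjE ρ γ).toLinearMap))
      rw [h1, Submodule.map_comap_eq_of_surjective (conjE ρ γ).surjective]
    have hu := dt.uniq hsl (S := (idl x0 y0).comap (conjE ρ γ).toLinearMap) ?_ ?_ hS ?_
    · rcases hu with h1 | h1
      · intro a ha
        exact h1 ha
      · exfalso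
        rw [hqf] at h1
        rw [h1] at hq
        exact hq (by decide)
    · intro X hX
      have h1 := hsl.le dt (show ρ γ * X * ρ γ⁻¹ ∈ idl x0 y0 from hX)
      have h2 := hconj γ⁻¹ _ h1
      rw [inv_inv, CT.conj_inv] at h2
      exact h2
    · intro X hX a ha
      have ha' : ρ γ * a * ρ γ⁻¹ ∈ idl x0 y0 := ha
      change ρ γ * (X * a - a * X) * ρ γ⁻¹ ∈ idl x0 y0
      rw [mul_sub, sub_mul, CT.conj_mul, CT.conj_mul]
      exact hsl.ideal dt _ (hconj γ X hX) _ ha'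
    · intro a ha
      obtain ⟨c', hc'⟩ := hsl.sq (show ρ γ * a * ρ γ⁻¹ ∈ idl x0 y0 from ha)
      refine ⟨c', ?_⟩
      rw [← CT.conj_mul] at hc'
      have h1 := congrArg (fun A => ρ γ⁻¹ * A * ρ γ) hc'
      simp only [CT.conj_inv] at h1
      rw [h1, mul_smul_comm, smul_mul_assoc, mul_one, ← map_mul, inv_mul_cancel, map_one]
  apply hT
  have hr := hsl.ne
  have hspan : Submodule.span K {r0⁻¹ • x0, y0, r0⁻¹ • x0 * y0 - y0 * (r0⁻¹ • x0)} =
      idl x0 y0 := by
    have e1 : r0⁻¹ • x0 * y0 - y0 * (r0⁻¹ • x0) = r0⁻¹ • (x0 * y0 - y0 * x0) := by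
      rw [smul_mul_assoc, mul_smul_comm, smul_sub]
    rw [e1]
    apply le_antisymm
    · rw [Submodule.span_le]
      rintro _ (rfl | rfl | rfl)
      · exact Submodule.smul_mem _ _ x_mem_idl
      · exact y_mem_idl
      · exact Submodule.smul_mem _ _ h_mem_idl
    · unfold idl
      rw [Submodule.span_le]
      intro a ha
      rcases ha with ha | ha | ha
      · have h1 := Submodule.smul_mem (Submodule.span K
          {r0⁻¹ • x0, y0, r0⁻¹ • (x0 * y0 - y0 * x0)}) r0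
          (Submodule.subset_span (Or.inl rfl))
        rw [smul_smul, mul_inv_cancel₀ hr, one_smul] at h1
        rw [ha]
        exact h1
      · exact Submodule.subset_span (Or.inr (Or.inl ha))
      · have h1 := Submodule.smul_mem (Submodule.span K
          {r0⁻¹ • x0, y0, r0⁻¹ • (x0 * y0 - y0 * x0)}) r0
          (Submodule.subset_span (Or.inr (Or.inr rfl)))
        rw [smul_smul, mul_inv_cancel₀ hr, one_smul] at h1
        rw [ha]
        exact h1
  refine ⟨r0⁻¹ • x0, y0, ?_, hsl.yy, ?_, ?_⟩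
  · rw [smul_mul_smul_comm, hsl.xx, smul_zero]
  · rw [smul_mul_assoc, mul_smul_comm, ← smul_add, hsl.xy, smul_smul, inv_mul_cancel₀ hr,
      one_smul]
  · rw [hspan]
    exact hst

end tr

end Run7.h552.SF
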