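import Pool.Agent.Run7.h552.SF.Ext

/-!
# The homogeneous components of the elements of a Lie algebra of operators which contains a
# diagonalizable operator with rational eigenvalues
-/

set_option autoImplicit false
set_option linter.unusedSectionVars false

namespace Run7.h552.SF

open Module Finset Run7.h552.CT

variable {K : Type*} [Field K] [CharZero K] {V : Type*} [AddCommGroup V] [Module K V]

section basis

variable {κ : Type*} [Fintype κ] (b : Basis κ K V) (c : κ → ℚ)

/-- the projection to the span of the basis vectors of weight `a` -/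
noncomputable def Pw (a : ℚ) : End K V :=
  b.constr K fun k => if c k = a then b k else 0

theorem Pw_apply (a : ℚ) (k : κ) : Pw b c a (b k) = if c k = a then b k else 0 := by
  rw [Pw, Basis.constr_basis]

variable {b c} {D : End K V} (hD : ∀ k, D (b k) = (c k : K) • b k)

include hD in
theorem Pw_left (a : ℚ) : D * Pw b c a = (a : K) • Pw b c a := by
  apply b.ext
  intro k
  rw [Module.End.mul_apply, LinearMap.smul_apply, Pw_apply]
  split_ifs with h
  · rw [hD, h]
  · rw [map_zero, smul_zero]

include hD in
theorem Pw_right (a : ℚ) : Pw b c a * D = (a : K) • Pw b c a := by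
  apply b.ext
  intro k
  rw [Module.End.mul_apply, LinearMap.smul_apply, hD, map_smul, Pw_apply]
  split_ifs with h
  · rw [h]
  · rw [smul_zero, smul_zero]

theorem Pw_sum {S : Finset ℚ} (hS : ∀ k, c k ∈ S) : ∑ a ∈ S, Pw b c a = (1 : End K V) := by
  classical
  apply b.ext
  intro k
  rw [LinearMap.sum_apply, Module.End.one_apply]
  simp only [Pw_apply]
  rw [Finset.sum_ite_eq, if_pos (hS k)]

/-- the component of degree `a` -/
noncomputable def comp (b : Basis κ K V) (c : κ → ℚ) (S : Finset ℚ) (X : End K V) (a : ℚ) :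
    End K V :=
  ∑ p ∈ S, ∑ q ∈ S, if p - q = a then Pw b c p * X * Pw b c q else 0

include hD in
theorem comp_eig (S : Finset ℚ) (X : End K V) (a : ℚ) :
    D * comp b c S X a - comp b c S X a * D = (a : K) • comp b c S X a := by
  unfold comp
  rw [Finset.mul_sum, Finset.sum_mul, ← Finset.sum_sub_distrib, Finset.smul_sum]
  refine Finset.sum_congr rfl fun p _ => ?_
  rw [Finset.mul_sum, Finset.sum_mul, ← Finset.sum_sub_distrib, Finset.smul_sum]
  refine Finset.sum_congr rfl fun q _ => ?_
  split_ifs with h
  · rw [← mul_assoc, ← mul_assoc, Pw_left hD, mul_assoc (Pw b c p * X), Pw_right hD,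
      smul_mul_assoc, smul_mul_assoc, mul_smul_comm, ← sub_smul, ← h]
    push_cast
    rfl
  · rw [mul_zero, zero_mul, sub_zero, smul_zero]

theorem comp_sum {S U : Finset ℚ} (hS : ∀ k, c k ∈ S) (hU : ∀ p ∈ S, ∀ q ∈ S, p - q ∈ U)
    (X : End K V) : ∑ a ∈ U, comp b c S X a = X := by
  have h1 : X = ∑ p ∈ S, ∑ q ∈ S, Pw b c p * X * Pw b c q := by
    rw [← Finset.sum_mul_sum, ← Finset.sum_mul, Pw_sum hS, one_mul, mul_one]
  conv_rhs => rw [h1]
  unfold comp
  rw [Finset.sum_comm]
  refine Finset.sum_congr rfl fun p hp => ?_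
  rw [Finset.sum_comm]
  refine Finset.sum_congr rfl fun q hq => ?_
  rw [Finset.sum_ite_eq, if_pos (hU p hp q hq)]

include hD in
/-- **The components of the elements of a stable subspace are in it.** -/
theorem comp_mem {S U : Finset ℚ} (hS : ∀ k, c k ∈ S) (hU : ∀ p ∈ S, ∀ q ∈ S, p - q ∈ U)
    {L : Submodule K (End K V)} (hL : ∀ X ∈ L, D * X - X * D ∈ L) {X : End K V} (hX : X ∈ L)
    (a : ℚ) : comp b c S X a ∈ L := by
  classical
  by_cases ha : a ∈ U
  swap
  · have h0 : comp b c S X a = 0 := by
      unfold comp
      refine Finset.sum_eq_zero fun p hp => Finset.sum_eq_zero fun q hq => if_neg fun h => ha ?_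
      rw [← h]
      exact hU p hp q hq
    rw [h0]
    exact L.zero_mem
  set R := Lagrange.basis U (fun z : ℚ => (z : K)) a with hR
  have hinj : Set.InjOn (fun z : ℚ => (z : K)) (U : Set ℚ) := fun x _ y _ h =>
    Rat.cast_injective h
  have h1 : Polynomial.aeval (adD D) R X = comp b c S X a := by
    conv_lhs => rw [← comp_sum (b := b) (c := c) hS hU X]
    rw [map_sum, Finset.sum_eq_single a]
    · rw [aeval_eig (comp_eig hD S X a), hR, Lagrange.eval_basis_self hinj ha, one_smul]
    · intro a' ha' hne
      rw [aeval_eig (comp_eig hD S X a'), hR, Lagrange.eval_basis_of_ne hne.symm ha', zero_smul]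
    · exact fun h => absurd ha h
  rw [← h1]
  exact aeval_mem (fun Y hY => hL Y hY) R hX

include hD in
/-- the eigenvectors -/
theorem eig_repr {x : V} {a : K} (hx : D x = a • x) (k : κ) (hk : (c k : K) ≠ a) :
    b.repr x k = 0 := by
  have h1 := congrArg (fun y => b.repr y k) hx
  have h2 : D x = ∑ l, b.repr x l • (c l : K) • b l := by
    conv_lhs => rw [← b.sum_repr x]
    rw [map_sum]
    exact Finset.sum_congr rfl fun l _ => by rw [map_smul, hD]
  have h3 : b.repr (D x) k = b.repr x k * c k := by
    classical
    rw [h2, map_sum, Finsupp.finsetSum_apply, Finset.sum_eq_single k]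
    · rw [map_smul, map_smul, b.repr_self, Finsupp.smul_apply, Finsupp.smul_apply,
        Finsupp.single_eq_same, smul_eq_mul, smul_eq_mul, mul_one]
    · intro l _ hl
      rw [map_smul, map_smul, b.repr_self, Finsupp.smul_apply, Finsupp.smul_apply,
        Finsupp.single_eq_of_ne hl.symm, smul_zero, smul_zero]
    · exact fun h => absurd (Finset.mem_univ k) h
  have h4 : b.repr (D x) k = a * b.repr x k := by
    rw [hx, map_smul, Finsupp.smul_apply, smul_eq_mul]
  have h5 : b.repr x k * ((c k : K) - a) = 0 := by
    rw [h4] at h3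
    linear_combination -h3
  exact (mul_eq_zero.1 h5).resolve_right (sub_ne_zero.2 hk)

end basis

end Run7.h552.SF
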