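import Pool.Agent.Run7.h552.SF.Grade
import Pool.Agent.TH118.SG.Full

/-!
# Lie algebras with an isolated weight
-/

set_option autoImplicit false
set_option linter.unusedSectionVars false

namespace Run7.h552.SF

open Module Finset Pool.Agent.Y127.G Pool.Agent.TH125.Gal Run7.h552.CT

universe u v

variable {K : Type u} [Field K] [CharZero K] {V : Type v} [AddCommGroup V] [Module K V]
  {B : V →ₗ[K] V →ₗ[K] K} [FiniteDimensional K V] {κ : Type*} [Fintype κ] {b : Basis κ K V}
  {c : κ → ℚ} {D : End K V} {kp km : κ} {L : Submodule K (End K V)}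

/-- Two weights `a`, `-a` of multiplicity one. -/
structure Pair {κ : Type*} (c : κ → ℚ) (kp km : κ) : Prop where
  m : c km = -c kp
  pu : ∀ k, c k = c kp → k = kp
  mu : ∀ k, c k = -c kp → k = km
  ne : c kp ≠ 0

theorem Pair.neg {κ : Type*} {c : κ → ℚ} {kp km : κ} (h : Pair c kp km) :
    Pair (fun k => -c k) km kp where
  m := by rw [h.m, neg_neg]
  pu k hk := h.mu k (by rw [← h.m]; exact neg_injective hk)
  mu k hk := h.pu k (by rw [h.m, neg_neg] at hk; exact neg_injective hk)
  ne := by rw [h.m, neg_neg]; exact h.ne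

theorem form_wtQ (hD : ∀ k, D (b k) = (c k : K) • b k) (hsk : Skew B D) {k l : κ}
    (h : c k + c l ≠ 0) : B (b k) (b l) = 0 := by
  have h1 := hsk (b k) (b l)
  rw [hD, hD, map_smul, map_smul, LinearMap.smul_apply, smul_eq_mul, smul_eq_mul, ← add_mul] at h1
  refine (mul_eq_zero.1 h1).resolve_left fun h2 => h ?_
  exact_mod_cast h2

/-- eigenvectors are orthogonal to the basis vectors of other weights -/
theorem form_eig (hD : ∀ k, D (b k) = (c k : K) • b k) (hsk : Skew B D) {x : V} {a : ℚ}
    (hx : D x = (a : K) • x) {l : κ} (h : a + c l ≠ 0) : B x (b l) = 0 := by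
  have h1 := hsk x (b l)
  rw [hD, hx, map_smul, map_smul, LinearMap.smul_apply, smul_eq_mul, smul_eq_mul, ← add_mul] at h1
  refine (mul_eq_zero.1 h1).resolve_left fun h2 => h ?_
  exact_mod_cast h2

/-- the weights of the images -/
theorem eig_apply (hD : ∀ k, D (b k) = (c k : K) • b k) {A : End K V} {e : ℚ}
    (hA : D * A - A * D = (e : K) • A) (k : κ) : D (A (b k)) = ((e + c k : ℚ) : K) • A (b k) := by
  have h2 := LinearMap.congr_fun hA (b k)
  rw [LinearMap.sub_apply, Module.End.mul_apply, Module.End.mul_apply, hD, map_smul,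
    LinearMap.smul_apply, sub_eq_iff_eq_add] at h2
  rw [h2, ← add_smul]
  push_cast
  rfl

/-- the coordinates of the images -/
theorem repr_apply (hD : ∀ k, D (b k) = (c k : K) • b k) {A : End K V} {e : ℚ}
    (hA : D * A - A * D = (e : K) • A) {k l : κ} (h : c l ≠ c k + e) :
    b.repr (A (b k)) l = 0 := by
  refine eig_repr hD (eig_apply hD hA k) l fun h1 => h ?_
  have h2 : c l = e + c k := by exact_mod_cast h1
  rw [h2, add_comm]

/-- **Homogeneous elements of suitable degree.** -/
theorem small_of_deg (hD : ∀ k, D (b k) = (c k : K) • b k) (hc : Pair c kp km)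
    (hskD : Skew B D) (hsy : ∀ x y, B x y = -B y x) (hnd : ∀ x, (∀ y, B x y = 0) → x = 0)
    {A : End K V} (hsk : Skew B A) {e : ℚ} (he : e ≠ 0) (hA : D * A - A * D = (e : K) • A)
    (hi : ∀ l m, c m = c l + e → c m = c kp ∨ c l = -c kp) :
    A * A = 0 ∧ finrank K (LinearMap.range A) ≤ 2 := by
  classical
  have hb : ∀ l, A (b l) ∈ Submodule.span K {b kp, A (b km)} := by
    intro l
    by_cases hl : c l = -c kp
    · rw [hc.mu l hl]
      exact Submodule.subset_span (Or.inr rfl)
    · rw [← b.sum_repr (A (b l))]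
      refine Submodule.sum_mem _ fun m _ => ?_
      by_cases hm : m = kp
      · rw [hm]
        exact Submodule.smul_mem _ _ (Submodule.subset_span (Or.inl rfl))
      · rw [repr_apply hD hA fun h => ?_, zero_smul]
        · exact Submodule.zero_mem _
        · exact hm (hc.pu m ((hi l m h).resolve_right hl))
  have hr : LinearMap.range A ≤ Submodule.span K {b kp, A (b km)} := by
    rintro _ ⟨x, rfl⟩
    rw [← b.sum_repr x, map_sum]
    refine Submodule.sum_mem _ fun l _ => ?_
    rw [map_smul]
    exact Submodule.smul_mem _ _ (hb l)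
  have hpw : B (A (b km)) (b kp) = 0 := by
    refine form_eig hD hskD (eig_apply hD hA km) ?_
    rw [hc.m, neg_add_cancel_right]
    exact he
  have hiso : ∀ x y, B (A x) (A y) = 0 := by
    have h1 : ∀ u ∈ Submodule.span K {b kp, A (b km)}, ∀ w ∈ Submodule.span K {b kp, A (b km)},
        B u w = 0 := by
      intro u hu w hw
      obtain ⟨r, s, rfl⟩ := Submodule.mem_span_pair.1 hu
      obtain ⟨r', s', rfl⟩ := Submodule.mem_span_pair.1 hw
      simp only [map_add, map_smul, LinearMap.add_apply, LinearMap.smul_apply, smul_eq_mul,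
        alt_self hsy, hpw, hsy (b kp) (A (b km))]
      ring
    exact fun x y => h1 _ (hr ⟨x, rfl⟩) _ (hr ⟨y, rfl⟩)
  refine ⟨?_, ?_⟩
  · apply LinearMap.ext
    intro x
    rw [LinearMap.zero_apply, Module.End.mul_apply]
    refine hnd _ fun y => ?_
    rw [eq_neg_of_add_eq_zero_left (hsk (A x) y), hiso, neg_zero]
  · refine (Submodule.finrank_mono hr).trans ?_
    refine (finrank_span_le_card _).trans ?_
    rw [Set.toFinset_insert, Set.toFinset_singleton]
    exact Finset.card_le_two

/-- The Lie algebra contains a square-zero operator of rank one or two. -/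
def HasSmall (L : Submodule K (End K V)) : Prop :=
  ∃ A ∈ L, A * A = 0 ∧ A ≠ 0 ∧ finrank K (LinearMap.range A) ≤ 2

/-- the weights as a finite set -/
theorem exists_fin (c : κ → ℚ) : ∃ S U : Finset ℚ, (∀ k, c k ∈ S) ∧
    ∀ p ∈ S, ∀ q ∈ S, p - q ∈ U := by
  classical
  refine ⟨univ.image c, ((univ.image c) ×ˢ (univ.image c)).image fun z => z.1 - z.2,
    fun k => mem_image_of_mem _ (mem_univ k), fun p hp q hq => ?_⟩
  exact mem_image.2 ⟨(p, q), mem_product.2 ⟨hp, hq⟩, rfl⟩

/-- the components, applied to basis vectors -/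
theorem comp_b {S : Finset ℚ} (hS : ∀ k, c k ∈ S) (X : End K V) (k l : κ) :
    b.repr (comp b c S X (c l - c k) (b k)) l = b.repr (X (b k)) l := by
  classical
  have h1 : comp b c S X (c l - c k) (b k) = Pw b c (c l) (X (b k)) := by
    unfold comp
    rw [LinearMap.sum_apply, Finset.sum_eq_single (c l)]
    · rw [LinearMap.sum_apply, Finset.sum_eq_single (c k)]
      · rw [if_pos rfl, Module.End.mul_apply, Module.End.mul_apply, Pw_apply, if_pos rfl]
      · intro q _ hq
        split_ifs with h
        · exact absurd (sub_right_injective h) hq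
        · rfl
      · exact fun h => absurd (hS k) h
    · intro p _ hp
      rw [LinearMap.sum_apply]
      refine Finset.sum_eq_zero fun q _ => ?_
      split_ifs with h
      · rw [Module.End.mul_apply, Module.End.mul_apply, Pw_apply]
        split_ifs with hq
        · exfalso
          apply hp
          rw [← hq] at h
          exact sub_left_injective h
        · rw [map_zero, map_zero]
      · rfl
    · exact fun h => absurd (hS l) h
  rw [h1]
  have h2 : ∀ x : V, b.repr (Pw b c (c l) x) l = b.repr x l := by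
    intro x
    conv_lhs => rw [← b.sum_repr x]
    rw [map_sum, map_sum, Finsupp.finsetSum_apply, Finset.sum_eq_single l]
    · rw [map_smul, Pw_apply, if_pos rfl, map_smul, b.repr_self, Finsupp.smul_apply,
        Finsupp.single_eq_same, smul_eq_mul, mul_one]
    · intro m _ hm
      rw [map_smul, Pw_apply, map_smul, Finsupp.smul_apply]
      split_ifs
      · rw [b.repr_self, Finsupp.single_eq_of_ne hm.symm, smul_zero]
      · rw [map_zero, Finsupp.zero_apply, smul_zero]
    · exact fun h => absurd (mem_univ l) h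
  exact h2 _

/-- **An isolated weight.** -/
theorem small_of_iso (hD : ∀ k, D (b k) = (c k : K) • b k) (hc : Pair c kp km) (hDL : D ∈ L)
    (hbr : ∀ A ∈ L, ∀ A' ∈ L, A * A' - A' * A ∈ L) (hsk : ∀ A ∈ L, Skew B A)
    (hsy : ∀ x y, B x y = -B y x) (hnd : ∀ x, (∀ y, B x y = 0) → x = 0)
    (hirr : ∀ U : Submodule K V, (∀ X ∈ L, ∀ x ∈ U, X x ∈ U) → U = ⊥ ∨ U = ⊤)
    (hi : ∀ k, k ≠ kp → ∀ l m, c m = c l + (c kp - c k) → c m = c kp ∨ c l = -c kp) :
    HasSmall L := by
  classical
  obtain ⟨S, U, hS, hU⟩ := exists_fin c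
  obtain ⟨X, hX, k, hk, hne⟩ : ∃ X ∈ L, ∃ k, k ≠ kp ∧ b.repr (X (b k)) kp ≠ 0 := by
    by_contra hcon
    push Not at hcon
    have h1 : ∀ x : V, b.repr x kp = 0 → ∀ X ∈ L, b.repr (X x) kp = 0 := by
      intro x hx X hX
      rw [← b.sum_repr x, map_sum, map_sum, Finsupp.finsetSum_apply]
      refine Finset.sum_eq_zero fun k _ => ?_
      rw [map_smul, map_smul, Finsupp.smul_apply]
      by_cases hk : k = kp
      · rw [hk, hx, zero_smul]
      · rw [hcon X hX k hk, smul_zero]
    rcases hirr (LinearMap.ker (b.coord kp)) (fun X hX x hx => by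
        rw [LinearMap.mem_ker, Basis.coord_apply] at hx ⊢
        exact h1 x hx X hX) with h2 | h2
    · have h3 : b km ∈ LinearMap.ker (b.coord kp) := by
        rw [LinearMap.mem_ker, Basis.coord_apply, b.repr_self, Finsupp.single_eq_of_ne]
        intro h4
        have h5 := hc.m
        rw [← h4] at h5
        exact hc.ne (by linarith)
      rw [h2, Submodule.mem_bot] at h3
      exact b.ne_zero km h3
    · have h3 : b kp ∈ LinearMap.ker (b.coord kp) := by
        rw [h2]
        exact Submodule.mem_top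
      rw [LinearMap.mem_ker, Basis.coord_apply, b.repr_self, Finsupp.single_eq_same] at h3
      exact one_ne_zero h3
  have hAL := comp_mem hD (b := b) (c := c) hS hU (fun A hA => hbr D hDL A hA) hX (c kp - c k)
  have hA := comp_eig hD S X (c kp - c k)
  have he : c kp - c k ≠ 0 := fun h => hk (hc.pu k (sub_eq_zero.1 h).symm)
  obtain ⟨h1, h2⟩ := small_of_deg hD hc (hsk D hDL) hsy hnd (hsk _ hAL) he hA (hi k hk)
  refine ⟨_, hAL, h1, fun h3 => hne ?_, h2⟩
  rw [← comp_b (b := b) (c := c) hS X k kp, h3, LinearMap.zero_apply, map_zero,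
    Finsupp.zero_apply]

/-- **Height one.** -/
theorem small_of_height (hD : ∀ k, D (b k) = (c k : K) • b k) {γ : ℚ} (hγ : 0 < γ)
    (hp : c kp = 3 * γ) (hc : Pair c kp km) (hint : ∀ k, k ≠ kp → k ≠ km → |c k| ≤ γ) {k₀ : κ}
    (hk₀ : |c k₀| < γ) (hDL : D ∈ L)
    (hbr : ∀ A ∈ L, ∀ A' ∈ L, A * A' - A' * A ∈ L) (hsk : ∀ A ∈ L, Skew B A)
    (hsy : ∀ x y, B x y = -B y x) (hnd : ∀ x, (∀ y, B x y = 0) → x = 0)
    (hirr : ∀ U : Submodule K V, (∀ X ∈ L, ∀ x ∈ U, X x ∈ U) → U = ⊥ ∨ U = ⊤) :
    HasSmall L := by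
  classical
  obtain ⟨S, U, hS, hU⟩ := exists_fin c
  by_contra hno
  have hm : c km = -(3 * γ) := by rw [hc.m, hp]
  -- the weights
  have hwt : ∀ k, c k = 3 * γ ∨ c k = -(3 * γ) ∨ |c k| ≤ γ := by
    intro k
    by_cases h1 : k = kp
    · exact Or.inl (by rw [h1, hp])
    · by_cases h2 : k = km
      · exact Or.inr (Or.inl (by rw [h2, hm]))
      · exact Or.inr (Or.inr (hint k h1 h2))
  -- no elements of small degree
  have hz : ∀ A ∈ L, ∀ e : ℚ, e < -(2 * γ) → D * A - A * D = (e : K) • A → A = 0 := by
    intro A hA e he hAe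
    by_contra hA0
    apply hno
    have hD' : ∀ k, (-D) (b k) = ((-c k : ℚ) : K) • b k := by
      intro k
      rw [LinearMap.neg_apply, hD]
      push_cast
      rw [neg_smul]
    have hskD' : Skew B (-D) := hsk _ (L.neg_mem hDL)
    have hA' : -D * A - A * -D = ((-e : ℚ) : K) • A := by
      have h1 : -D * A - A * -D = -(D * A - A * D) := by noncomm_ring
      rw [h1, hAe]
      push_cast
      rw [neg_smul]
    obtain ⟨h1, h2⟩ := small_of_deg (c := fun k => -c k) hD' hc.neg hskD' hsy hnd (hsk _ hA)
      (e := -e) (by linarith) hA' (by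
        intro l m hlm
        rw [hm, neg_neg]
        have h3 : c m = c l + e := by linarith
        rcases hwt l with h4 | h4 | h4
        · exact Or.inr (by rw [h4])
        · left
          rcases hwt m with h5 | h5 | h5
          · linarith
          · linarith
          · have := abs_le.1 h5
            linarith
        · left
          have h6 := abs_le.1 h4
          rcases hwt m with h5 | h5 | h5
          · linarith
          · linarith
          · have := abs_le.1 h5
            linarith)
    exact ⟨A, hA, h1, hA0, h2⟩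
  -- the subspace generated by `p`
  let P : Submodule K V → Prop := fun W => b kp ∈ W ∧ ∀ Y ∈ L,
    D * Y - Y * D = ((-(2 * γ) : ℚ) : K) • Y → ∀ x ∈ W, Y x ∈ W
  let W₀ : Submodule K V := sInf {W | P W}
  have hmem : ∀ x, x ∈ W₀ ↔ ∀ W, P W → x ∈ W := fun x => Submodule.mem_sInf
  have hP0 : P W₀ := by
    refine ⟨(hmem _).2 fun W hW => hW.1, fun Y hY hYe x hx => (hmem _).2 fun W hW => ?_⟩
    exact hW.2 Y hY hYe x ((hmem x).1 hx W hW)
  -- the images of `p`
  have hLp : ∀ A ∈ L, A (b kp) ∈ W₀ := by
    intro A hA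
    have hY := comp_mem hD (b := b) (c := c) hS hU (fun A hA => hbr D hDL A hA) hA (-(2 * γ))
    have hYe := comp_eig hD S A (-(2 * γ))
    have h1 := hP0.2 _ hY hYe _ hP0.1
    have h2 : A (b kp) = b.repr (A (b kp)) kp • b kp + comp b c S A (-(2 * γ)) (b kp) := by
      apply b.ext_elem
      intro l
      rw [map_add, Finsupp.add_apply, map_smul, Finsupp.smul_apply, b.repr_self, smul_eq_mul]
      by_cases hl : l = kp
      · rw [hl, Finsupp.single_eq_same, mul_one, repr_apply hD hYe (by linarith), add_zero]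
      · rw [Finsupp.single_eq_of_ne hl, mul_zero, zero_add]
        by_cases hlγ : c l = γ
        · rw [← comp_b (b := b) (c := c) hS A kp l, show c l - c kp = -(2 * γ) by
            rw [hlγ, hp]; ring]
        · rw [repr_apply hD hYe (by rw [hp]; intro h; apply hlγ; linarith)]
          rw [← comp_b (b := b) (c := c) hS A kp l, hz _ (comp_mem hD (b := b) (c := c) hS hU
            (fun A hA => hbr D hDL A hA) hA (c l - c kp)) (c l - c kp) ?_ (comp_eig hD S A _),
            LinearMap.zero_apply, map_zero, Finsupp.zero_apply]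
          rcases hwt l with h4 | h4 | h4
          · exact absurd (hc.pu l (by rw [h4, hp])) hl
          · linarith
          · have h5 := abs_le.1 h4
            have h6 : c l < γ := lt_of_le_of_ne h5.2 hlγ
            linarith
    rw [h2]
    exact W₀.add_mem (W₀.smul_mem _ hP0.1) h1
  -- it is stable
  have hst : ∀ X ∈ L, ∀ x ∈ W₀, X x ∈ W₀ := by
    let W₁ : Submodule K V :=
      { carrier := {x | x ∈ W₀ ∧ ∀ X ∈ L, X x ∈ W₀}
        zero_mem' := ⟨W₀.zero_mem, fun X _ => by rw [map_zero]; exact W₀.zero_mem⟩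
        add_mem' := fun {x y} hx hy => ⟨W₀.add_mem hx.1 hy.1, fun X hX => by
          rw [map_add]; exact W₀.add_mem (hx.2 X hX) (hy.2 X hX)⟩
        smul_mem' := fun r x hx => ⟨W₀.smul_mem r hx.1, fun X hX => by
          rw [map_smul]; exact W₀.smul_mem r (hx.2 X hX)⟩ }
    have hP1 : P W₁ := by
      refine ⟨⟨hP0.1, hLp⟩, fun Y hY hYe x hx => ⟨hP0.2 Y hY hYe x hx.1, fun X hX => ?_⟩⟩
      have h1 : X (Y x) = (X * Y - Y * X) x + Y (X x) := by
        rw [LinearMap.sub_apply, Module.End.mul_apply, Module.End.mul_apply, sub_add_cancel]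
      rw [h1]
      exact W₀.add_mem (hx.2 _ (hbr X hX Y hY)) (hP0.2 Y hY hYe _ (hx.2 X hX))
    intro X hX x hx
    exact ((hmem x).1 hx W₁ hP1).2 X hX
  -- it is not everything
  let E : Submodule K V :=
    { carrier := {x | ∀ l, |c l| < γ → b.repr x l = 0}
      zero_mem' := fun l _ => by rw [map_zero, Finsupp.zero_apply]
      add_mem' := fun {x y} hx hy l hl => by
        rw [map_add, Finsupp.add_apply, hx l hl, hy l hl, add_zero]
      smul_mem' := fun r x hx l hl => by
        rw [map_smul, Finsupp.smul_apply, hx l hl, smul_zero] }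
  have hPE : P E := by
    refine ⟨fun l hl => ?_, fun Y hY hYe x hx l hl => ?_⟩
    · rw [b.repr_self, Finsupp.single_eq_of_ne]
      intro h1
      rw [h1, hp, abs_of_pos (by linarith)] at hl
      linarith
    · rw [← b.sum_repr x, map_sum, map_sum, Finsupp.finsetSum_apply]
      refine Finset.sum_eq_zero fun k _ => ?_
      rw [map_smul, map_smul, Finsupp.smul_apply]
      by_cases hk : |c k| < γ
      · rw [hx k hk, zero_smul]
      · rw [repr_apply hD hYe, smul_zero]
        intro h1
        have h2 := abs_lt.1 hl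
        rcases hwt k with h4 | h4 | h4
        · rw [h4] at h1; linarith
        · rw [h4] at h1; linarith
        · have h5 := abs_le.1 h4
          have h6 : c k = γ := by
            by_contra h7
            apply hk
            rw [abs_lt]
            exact ⟨by linarith, lt_of_le_of_ne h5.2 h7⟩
          rw [h6] at h1
          linarith
  have hW0E : W₀ ≤ E := fun x hx => (hmem x).1 hx E hPE
  rcases hirr W₀ hst with h1 | h1
  · have h2 := hP0.1
    rw [h1, Submodule.mem_bot] at h2
    exact b.ne_zero kp h2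
  · have h2 : b k₀ ∈ E := hW0E (by rw [h1]; exact Submodule.mem_top)
    have h3 := h2 k₀ hk₀
    rw [b.repr_self, Finsupp.single_eq_same] at h3
    exact one_ne_zero h3

end Run7.h552.SF
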