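import Pool.Agent.Run7.h552.SF.WDefs
import Pool.Agent.V11219.MinDefs
import Pool.Agent.TH125.Gal.Pub2
import Pool.Agent.Y127.G.SDefs

/-!
# Systems of varieties with local conditions at different places: definitions
-/

set_option autoImplicit false

open CategoryTheory AlgebraicGeometry

universe u

namespace Run7.h552.SF.Q

open Pool.Agent.TH125.Gal Pool.Agent.V11219.Min Pool.Agent.Y127.G

section Lin

variable {K V : Type} [Field K] [AddCommGroup V] [Module K V] {Γ : Type}

/-- The operator `c₀ x + c₁ y + c₂ (x y - y x)`. -/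
def comb (x y : Module.End K V) (c : Fin 3 → K) : Module.End K V :=
  c 0 • x + c 1 • y + c 2 • (x * y - y * x)

/-- The operations `R g` on `V` are of tensor type: there are operators `x`, `y` with
`x ^ 2 = y ^ 2 = 0` and `x y + y x = 1` such that for every `g` and every combination `a` of `x`, `y`,
`x y - y x` there is a combination `a'` with `g a t = a' g t` for all `t`. (So `V` is a tensor
product of a space of dimension `2` with another space, and every `g` acts on `V` as a tensor product
of two operators.) -/
def TensorType (K : Type) [Field K] [Module K V] (R : Γ → V → V → Prop) : Prop :=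
  ∃ x y : Module.End K V, x * x = 0 ∧ y * y = 0 ∧ x * y + y * x = 1 ∧
    ∀ g c, ∃ c', ∀ t t', R g t t' → R g (comb x y c t) (comb x y c' t')

end Lin

section Alg

variable {K : Type} [Field K] {A : Type} [Ring A] [Algebra K A] [FiniteDimensional K A]
  {B : Type} [Ring B] [Algebra K B] [FiniteDimensional K B] {Γ : Type} [Group Γ]

/-- The element `F` maps the space `U` to itself, with the slopes `s`: the values of the additive
function `v` at the eigenvalues, with multiplicities. -/
def SlopesOn (v : Additive Kˣ →+ ℚ) (F : Γ) (ρ : Act K A Γ) (U : Submodule K A)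
    (s : Multiset ℚ) : Prop :=
  ∃ hU : ∀ x ∈ U, (ρ F).toLinearMap x ∈ U, slopes v ((ρ F).toLinearMap.restrict hU) = s

/-- The condition on the slopes `s` on `T`: some slope is isolated; or the slopes are `h + 3 c`,
`h - 3 c` and other slopes between `h - c` and `h + c`, and either one of the latter is not
`h - c` or `h + c`, or the dimension of `T` is `2 q + 2`, where `q` is different from `1`, `3`, `6`,
`9`, `15`, `27`, and `q` is `0` or `T` is not of tensor type. -/
def SlopeType (ρ : Act K A Γ) (T : Submodule K A) (s : Multiset ℚ) : Prop :=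
  (∃ a a', IsolatedAt s a a') ∨
  ∃ s' h c, HeightOneAt s s' h c ∧ ((∃ x ∈ s', |x - h| < c) ∨
    ∃ q : ℕ, Module.finrank K T = 2 * q + 2 ∧ q ∉ ({1, 3, 6, 9, 15, 27} : Finset ℕ) ∧
      (q = 0 ∨ ¬TensorType K fun g (t t' : T) => ρ g t = t'))

/-- The local condition on `T`: some element `F` has slopes as in `SlopeType`; or the set of all `g`
with `(g - 1) ^ 2 = 0` on `T` satisfies `SmallDefects` (for example, some such `g` has rank one, two
or an odd prime power and there is another one of coprime rank, and so on). -/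
def LocalType (ρ : Act K A Γ) (T : Submodule K A) : Prop :=
  (∃ (v : Additive Kˣ →+ ℚ) (F : Γ) (s : Multiset ℚ), SlopesOn v F ρ T s ∧ SlopeType ρ T s) ∨
  SmallDefects T ρ {g | Quad T ρ g}

/-- There are a linear map `ψ`, which maps `T` bijectively to `U`, and a function `ε` on the group
with `ψ (g x) = ε(g) g ψ(x)`. -/
def TwistIso (ρ : Act K A Γ) (T : Submodule K A) (ρ' : Act K B Γ) (U : Submodule K B) : Prop :=
  ∃ (ψ : A → B) (ε : Γ → K), IsLinearMap K ψ ∧ Set.BijOn ψ T U ∧
    ∀ g, ∀ x ∈ T, ψ (ρ g x) = ε g • ρ' g (ψ x)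

/-- The space `U` carries a nondegenerate bilinear form `b` with `b(x, y) = s b(y, x)` which is
invariant up to a character. -/
def FormOn (ρ : Act K A Γ) (U : Submodule K A) (s : K) : Prop :=
  ∃ (μ : Γ →* Kˣ) (b : A → A → K), (∀ x, IsLinearMap K (b x)) ∧ (∀ y, IsLinearMap K fun x => b x y) ∧
    (∀ x ∈ U, ∀ y ∈ U, b x y = s * b y x) ∧ (∀ x ∈ U, (∀ y ∈ U, b x y = 0) → x = 0) ∧
    ∀ g, ∀ x ∈ U, ∀ y ∈ U, b (ρ g x) (ρ g y) = μ g * b x y

/-- The rank of `g - 1` on `T`. -/
noncomputable def rankOn (ρ : Act K A Γ) (T : Submodule K A) (g : Γ) : ℕ :=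
  Module.finrank K (T.map (dif ρ g))

/-- The space `U` is small with respect to the space `T`: for an element `F` the number of the pairs
of slopes with some difference `δ` on `U` is smaller than one half of this number on `T`; or an
element `g` acts on `T` and `U` with `(g - 1) ^ 2 = 0` and with ranks `r` and `r'` such that
`2 r' ^ 2 < r (r + 1)`; or `U` carries a symmetric form and `dim U ≤ dim T`; or `U` carries an
alternating form and `dim U < dim T`; or `2 (dim U) ^ 2 < dim T (dim T + 1)`. -/
def SmallFor (ρ : Act K A Γ) (T : Submodule K A) (ρ' : Act K B Γ) (U : Submodule K B) : Prop :=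
  (∃ (v : Additive Kˣ →+ ℚ) (F : Γ) (s s' : Multiset ℚ) (δ : ℚ), SlopesOn v F ρ T s ∧
    SlopesOn v F ρ' U s' ∧ 2 * gaps s' δ < gaps s δ) ∨
  (∃ g : Γ, Quad T ρ g ∧ Quad U ρ' g ∧
    2 * rankOn ρ' U g ^ 2 < rankOn ρ T g * (rankOn ρ T g + 1)) ∨
  (FormOn ρ' U 1 ∧ Module.finrank K U ≤ Module.finrank K T) ∨
  (FormOn ρ' U (-1) ∧ Module.finrank K U < Module.finrank K T) ∨
  2 * Module.finrank K U ^ 2 < Module.finrank K T * (Module.finrank K T + 1)

/-- The algebra `B` is generated by elements `x` with `g x = χ g ^ n • x` for all `g` in a subgroup of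
finite index and by finitely many stable subspaces which are small with respect to `T`. -/
def GenSmall (χ : Γ →* Kˣ) (ρ : Act K A Γ) (T : Submodule K A) (ρ' : Act K B Γ) : Prop :=
  ∃ (m : ℕ) (U : Fin m → Submodule K B), (∀ a, SmallFor ρ T ρ' (U a)) ∧
    (∀ a g, ∀ x ∈ U a, ρ' g x ∈ U a) ∧
      Algebra.adjoin K ({x | ∃ (n : ℕ) (Δ : Subgroup Γ), Δ.FiniteIndex ∧
        ∀ g ∈ Δ, ρ' g x = (χ g : K) ^ n • x} ∪ ⋃ a, (U a : Set B)) = ⊤

end Alg

open Pool.Agent.H914 Pool.Agent.H914.VarClass Pool.Agent.H914.VarClass.Obj
  Pool.Agent.H914.WeilCohomology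

variable {k : Type u} [Field k] {𝒱 : VarClass k} {ops : CycleOps 𝒱}
  {W : WeilCohomology.{u, 0} ops} {Γ : Type} [Group Γ] {ι : Type}

/-- For all `A` and `B` in `G` the product of `A` and `B`, with an action on the cohomology which is
compatible with the projections, is in `G`. -/
def ClosedProd (G : Set (GVar W Γ)) : Prop :=
  ∀ A ∈ G, ∀ B ∈ G, ∃ υ : Act W.K (W.H (A.X.prod B.X)) Γ,
    Intertwines (W.map (fst A.X B.X)) A.act υ ∧ Intertwines (W.map (snd A.X B.X)) B.act υ ∧
      GVar.mk (A.X.prod B.X) υ ∈ G

/-- The group acts on the cohomology of the members of the class `G` like a Galois group, and `G`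
is closed under products. The variety `Z` and the odd-dimensional varieties `X i` are members of `G`;
the divisors `D i` on `X i` satisfy the hard Lefschetz theorem and the standard conjectures of
Lefschetz and of Hodge type; the transcendental cohomology of `X i` is in the middle degree,
irreducible under all subgroups of finite index, and satisfies `LocalType`, and no two of them are
isomorphic up to a function on `Γ`; and the cohomology of `Z` is generated by small subspaces. -/
structure System (χ : CharOf W Γ) (G : Set (GVar W Γ)) (X : ι → GVar W Γ)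
    (D : ∀ i, (X i).X.Cycles) (Z : GVar W Γ) : Prop where
  galois : ∀ A ∈ G, GaloisVar χ A
  prod : ClosedProd G
  mem : ∀ i, X i ∈ G
  mem_base : Z ∈ G
  odd : ∀ i, Odd (X i).X.dim
  transIrred : ∀ i, TransIrred (X i) (D i)
  loc : ∀ i, LocalType (X i).act (transcendental W (X i).X)
  notIso : ∀ i j, i ≠ j → ¬TwistIso (X i).act (transcendental W (X i).X) (X j).act
    (transcendental W (X j).X)
  base : ∀ i, GenSmall χ (X i).act (transcendental W (X i).X) Z.act

end Run7.h552.SF.Q
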