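import Pool.Agent.Run7.h552.SF.FullA
import Pool.Agent.Run7.h552.SF.WDefs
import Pool.Agent.V11219.GkLie
import Pool.Agent.V11219.GkDefs
import Pool.Agent.Q71.TM.Lin
import Pool.Agent.Y127.C.Uni
import Pool.Agent.Y127.G.Slope

/-!
# Local conditions which give the whole symplectic Lie algebra
-/

set_option autoImplicit false
set_option linter.unusedSectionVars false

namespace Run7.h552.SF

open Module Finset Function Pool.Agent.TH125.Gal Pool.Agent.Y127.G Pool.Agent.Y127.C
  Pool.Agent.Y95.ZT Run7.h552.CT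

section irr

universe u v w

variable {K : Type u} [Field K] [CharZero K] {T : Type v} [AddCommGroup T] [Module K T]
  [FiniteDimensional K T] {G : Type w} [Group G] {ρ : G →* (T →ₗ[K] T)}
  {L : Submodule K (Module.End K T)} {κ : Type*} [Fintype κ] {b : Basis κ K T} {c : κ → ℚ}
  {D : Module.End K T} {kp km : κ}

theorem Pw_memQ (hD : ∀ k, D (b k) = (c k : K) • b k) {W : Submodule K T}
    (hW : ∀ x ∈ W, D x ∈ W) {a : ℚ} {x : T} (hx : x ∈ W) : Pw b c a x ∈ W := by
  classical
  obtain ⟨S, U, hS, hU⟩ := exists_fin c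
  by_cases ha : a ∈ S
  · have hinj : Set.InjOn (fun z : ℚ => (z : K)) (S : Set ℚ) := fun x _ y _ h =>
      Rat.cast_injective h
    have h1 : Polynomial.aeval D (Lagrange.basis S (fun z : ℚ => (z : K)) a) = Pw b c a := by
      apply b.ext
      intro k
      rw [aeval_eig (hD k), Pw_apply]
      by_cases hk : c k = a
      · rw [if_pos hk, hk, Lagrange.eval_basis_self hinj ha, one_smul]
      · rw [if_neg hk, Lagrange.eval_basis_of_ne (Ne.symm hk) (hS k), zero_smul]
    rw [← h1]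
    exact aeval_mem hW _ hx
  · have h1 : Pw b c a = 0 := by
      apply b.ext
      intro k
      rw [Pw_apply, if_neg (fun h => ha (by rw [← h]; exact hS k)), LinearMap.zero_apply]
    rw [h1, LinearMap.zero_apply]
    exact W.zero_mem

/-- **Irreducibility.** -/
theorem irr_of_SIQ (hSI : SI ρ)
    (hconj : ∀ γ : G, ∀ A ∈ L, (ρ γ * A * ρ γ⁻¹ : Module.End K T) ∈ L)
    (hD : ∀ k, D (b k) = (c k : K) • b k) (hc : Pair c kp km) (hDL : D ∈ L)
    (W : Submodule K T) (hW : ∀ X ∈ L, ∀ x ∈ W, X x ∈ W) : W = ⊥ ∨ W = ⊤ := by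
  classical
  obtain ⟨M, ⟨hM0, hMs⟩, hMm⟩ := IsArtinian.set_has_minimal
    {M : Submodule K T | M ≠ ⊥ ∧ Stb L M} ⟨⊤, by
      refine ⟨fun h => b.ne_zero kp ?_, fun A _ x _ => Submodule.mem_top⟩
      rw [← Submodule.mem_bot K, ← h]
      exact Submodule.mem_top⟩
  have hM : Mn L M := by
    refine ⟨hM0, hMs, fun W hWM hW => ?_⟩
    by_contra hcon
    push Not at hcon
    exact hMm W ⟨hcon.1, hW⟩ (lt_of_le_of_ne hWM hcon.2)
  obtain ⟨γ, x, hx, hne⟩ : ∃ γ : G, ∃ x ∈ M, b.repr (ρ γ x) kp ≠ 0 := by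
    by_contra hcon
    push Not at hcon
    let U : Submodule K T :=
      { carrier := {y | ∀ γ : G, b.repr (ρ γ y) kp = 0}
        zero_mem' := fun γ => by rw [map_zero, map_zero, Finsupp.zero_apply]
        add_mem' := fun {a b'} ha hb γ => by
          rw [map_add, map_add, Finsupp.add_apply, ha γ, hb γ, add_zero]
        smul_mem' := fun c a ha γ => by
          rw [map_smul, map_smul, Finsupp.smul_apply, ha γ, smul_zero] }
    have h1 : U = ⊥ ∨ U = ⊤ := by
      refine hSI ⊤ inferInstance U fun g _ x hx γ => ?_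
      have h2 := hx (γ * g)
      rwa [map_mul, Module.End.mul_apply] at h2
    have hMU : M ≤ U := fun x hx γ => hcon γ x hx
    rcases h1 with h1 | h1
    · rw [h1] at hMU
      exact hM0 (le_bot_iff.1 hMU)
    · have h2 : b kp ∈ U := by rw [h1]; exact Submodule.mem_top
      have h3 := h2 1
      rw [map_one, Module.End.one_apply, b.repr_self, Finsupp.single_eq_same] at h3
      exact one_ne_zero h3
  have hM' : Mn L (M.map (ρ γ)) := hM.map hconj γ
  have hxM : ρ γ x ∈ M.map (ρ γ) := ⟨x, hx, rfl⟩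
  have hPx : Pw b c (c kp) (ρ γ x) = b.repr (ρ γ x) kp • b kp := by
    conv_lhs => rw [← b.sum_repr (ρ γ x)]
    rw [map_sum, Finset.sum_eq_single kp]
    · rw [map_smul, Pw_apply, if_pos rfl]
    · intro l _ hl
      rw [map_smul, Pw_apply, if_neg fun h => hl (hc.pu l h), smul_zero]
    · exact fun h => absurd (Finset.mem_univ _) h
  have hkp : b kp ∈ M.map (ρ γ) := by
    have h1 := Pw_memQ hD (fun y hy => hM'.2.1 D hDL y hy) (a := c kp) hxM
    rw [hPx] at h1
    have h2 := Submodule.smul_mem _ (b.repr (ρ γ x) kp)⁻¹ h1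
    rwa [smul_smul, inv_mul_cancel₀ hne, one_smul] at h2
  have htop : M.map (ρ γ) = ⊤ := by
    refine hM'.top hconj hDL (b.ne_zero kp) (c := ((c kp : ℚ) : K)) (hD kp) ?_ hSI hkp
    intro x hx
    refine ⟨b.repr x kp, ?_⟩
    conv_lhs => rw [← b.sum_repr x]
    rw [Finset.sum_eq_single kp]
    · intro l _ hl
      rw [eig_repr hD hx l fun h => hl (hc.pu l (by exact_mod_cast h)), zero_smul]
    · exact fun h => absurd (Finset.mem_univ _) h
  rw [htop] at hM'
  exact hM'.2.2 W le_top hW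

end irr

noncomputable section

variable {K : Type} [Field K] [CharZero K]

/-- the operator is diagonalizable with the rational eigenvalues `s` -/
def HasWt {V : Type} [AddCommGroup V] [Module K V] (A : Module.End K V) (s : Multiset ℚ) : Prop :=
  ∃ (κ : Type) (_ : Fintype κ) (b : Basis κ K V) (w : κ → ℚ),
    (∀ k, A (b k) = (w k : K) • b k) ∧ (univ : Finset κ).val.map w = s

theorem HasWt.of_int {V : Type} [AddCommGroup V] [Module K V] {A : Module.End K V}
    {s : Multiset ℤ} (h : HasWeights A s) : HasWt A (s.map fun z : ℤ => (z : ℚ)) := by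
  obtain ⟨κ, hκ, b, w, hb, hw⟩ := h
  refine ⟨κ, hκ, b, fun k => (w k : ℚ), fun k => ?_, ?_⟩
  · rw [hb k]
    push_cast
    rfl
  · rw [← hw, Multiset.map_map]
    rfl

theorem exists_uniq {κ : Type} [Fintype κ] {w : κ → ℚ} {s : Multiset ℚ}
    (hw : (univ : Finset κ).val.map w = s) {a : ℚ} (h : s.count a = 1) :
    ∃ k, w k = a ∧ ∀ l, w l = a → l = k := by
  classical
  have h1 : Fintype.card {k : κ // w k = a} = 1 := by
    rw [← h, ← hw, Multiset.count_map, Fintype.card_subtype, Finset.card_def, Finset.filter_val]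
    congr 1
    refine Multiset.filter_congr fun x _ => ?_
    exact eq_comm
  obtain ⟨⟨k, hk⟩, hu⟩ := Fintype.card_eq_one_iff.1 h1
  exact ⟨k, hk, fun l hl => congrArg Subtype.val (hu ⟨l, hl⟩)⟩

theorem mem_of_map {κ : Type} [Fintype κ] {w : κ → ℚ} {s : Multiset ℚ}
    (hw : (univ : Finset κ).val.map w = s) (k : κ) : w k ∈ s := by
  rw [← hw]
  exact Multiset.mem_map_of_mem w (Finset.mem_univ k)

variable {Γ : Type} [Group Γ] {ι : Type} {N : ι → FRep K Γ} {t t' : ι}

/-- The weights of paired vectors. -/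
theorem wt_sum (fr : Frm N t) {J : ∀ i, (N i).V →ₗ[K] (N i).V} {α : K}
    (hα : ∀ x y, fr.B (J t x) y + fr.B x (J t y) = α * fr.B x y)
    {κ : Type} [Fintype κ] {b : Basis κ K (N t).V} {w : κ → ℚ}
    (hJ : ∀ k, J t (b k) = (w k : K) • b k) {k l : κ} (h : fr.B (b k) (b l) ≠ 0) :
    α = ((w k + w l : ℚ) : K) := by
  have h1 := hα (b k) (b l)
  rw [hJ, hJ, map_smul, map_smul, LinearMap.smul_apply, smul_eq_mul, smul_eq_mul, ← add_mul] at h1
  have h2 := mul_right_cancel₀ h h1
  rw [← h2]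
  push_cast
  rfl

theorem exists_pair {V : Type} [AddCommGroup V] [Module K V] {B : V →ₗ[K] V →ₗ[K] K}
    (nd : ∀ x, (∀ y, B x y = 0) → x = 0) {κ : Type} [Fintype κ] (b : Basis κ K V) (k : κ) :
    ∃ l, B (b k) (b l) ≠ 0 := by
  by_contra hcon
  push Not at hcon
  refine b.ne_zero k (nd _ fun y => ?_)
  have k1 : B (b k) = 0 := b.ext fun l => by rw [hcon, LinearMap.zero_apply]
  rw [k1, LinearMap.zero_apply]

/-- the centred operator -/
def ctr (J : Module.End K (N t).V) (h : ℚ) : Module.End K (N t).V := J - (h : K) • 1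

theorem ctr_b {J : Module.End K (N t).V} {h : ℚ} {κ : Type} {b : Basis κ K (N t).V}
    {w : κ → ℚ} (hJ : ∀ k, J (b k) = (w k : K) • b k) (k : κ) :
    ctr J h (b k) = ((w k - h : ℚ) : K) • b k := by
  rw [ctr, LinearMap.sub_apply, LinearMap.smul_apply, Module.End.one_apply, hJ, ← sub_smul]
  push_cast
  rfl

theorem ctr_mem (fr : Frm N t) {J : ∀ i, (N i).V →ₗ[K] (N i).V} (hJG : J ∈ GG N) {h : ℚ} {α : K}
    (hα : ∀ x y, fr.B (J t x) y + fr.B x (J t y) = α * fr.B x y)
    (hh : α = ((2 * h : ℚ) : K)) : ctr (J t) h ∈ frL fr := by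
  refine ⟨fun x y => ?_, J, hJG, (h : K), ?_⟩
  · have h2 := hα x y
    rw [hh] at h2
    simp only [ctr, LinearMap.sub_apply, LinearMap.smul_apply, Module.End.one_apply, map_sub,
      map_smul, smul_eq_mul]
    push_cast at h2
    linear_combination h2
  · rw [ctr, sub_add_cancel]

/-- the two forms of the operators of rank at most two -/
theorem SS_eq {V : Type} [AddCommGroup V] [Module K V] (B : V →ₗ[K] V →ₗ[K] K) (x y : V) :
    Pool.Agent.H204R3.SP.SS B x y = oo B (-1) x y := by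
  apply LinearMap.ext
  intro z
  rw [Pool.Agent.H204R3.SP.SS_apply, oom_apply, add_comm]

/-- the multiplier as a homomorphism -/
def muHom (fr : Frm N t) : Γ →* K where
  toFun := fr.μ
  map_one' := by
    obtain ⟨e, he0, -⟩ := finrank_eq_one_iff'.1 fr.lamV
    have h1 := fr.lamρ 1 e
    rw [map_one, Module.End.one_apply] at h1
    have h2 : (1 - fr.μ 1) • e = 0 := by rw [sub_smul, one_smul, ← h1, sub_self]
    exact (sub_eq_zero.1 ((smul_eq_zero.1 h2).resolve_right he0)).symm
  map_mul' g g' := by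
    obtain ⟨e, he0, -⟩ := finrank_eq_one_iff'.1 fr.lamV
    have h1 := fr.lamρ (g * g') e
    rw [map_mul, Module.End.mul_apply, fr.lamρ, fr.lamρ, smul_smul] at h1
    have h2 : (fr.μ g * fr.μ g' - fr.μ (g * g')) • e = 0 := by rw [sub_smul, h1, sub_self]
    exact (sub_eq_zero.1 ((smul_eq_zero.1 h2).resolve_right he0)).symm

/-- **A small element gives everything.** -/
theorem exists_FulS_small [IsAlgClosed K] (fr : Frm N t) (sy : ∀ x y, fr.B x y = -fr.B y x)
    (nd : ∀ x, (∀ y, fr.B x y = 0) → x = 0) (si : SI (N t).ρ)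
    (h : HasSmall (frL fr)) : ∃ o : FulS N t, o.toFrm = fr := by
  obtain ⟨A, hA, hA2, hA0, hAr⟩ := h
  obtain ⟨z, hz⟩ : ∃ z, A z ≠ 0 := by
    by_contra hcon
    push Not at hcon
    exact hA0 (LinearMap.ext hcon)
  have hX := Pool.Agent.TH118.SG.SI_conv ⟨A z, hz⟩ si
  have hall := Pool.Agent.TH118.SG.full_of_N (L := frL fr) (R := (N t).ρ) (χ := muHom fr) (alt_self sy) nd
    fr.eqv (frL_conj fr) (frL_br fr) (fun Y hY => hY.1) hX hA hA2 hA0 (by
      rw [Submodule.map_top]
      exact hAr)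
  obtain ⟨y, hy⟩ : ∃ y, fr.B (A z) y ≠ 0 := by
    by_contra hcon
    push Not at hcon
    exact hz (nd _ hcon)
  refine ⟨⟨fr, sy, nd, si, A z, y, hy, fun x y => ?_⟩, rfl⟩
  have h1 := hall x y
  rw [SS_eq] at h1
  exact h1.2

/-- **An isolated weight.** -/
theorem exists_FulS_iso [IsAlgClosed K] (fr : Frm N t) (sy : ∀ x y, fr.B x y = -fr.B y x)
    (nd : ∀ x, (∀ y, fr.B x y = 0) → x = 0) (si : SI (N t).ρ)
    {J : ∀ i, (N i).V →ₗ[K] (N i).V} (hJG : J ∈ GG N) {s : Multiset ℚ} (hs : HasWt (J t) s)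
    {a a' : ℚ} (ha : IsolatedAt s a a') : ∃ o : FulS N t, o.toFrm = fr := by
  obtain ⟨κ, hκ, b, w, hJ, hw⟩ := hs
  obtain ⟨hne, hca, hca', hi⟩ := ha
  obtain ⟨kp, hkp, hpu⟩ := exists_uniq hw hca
  obtain ⟨km, hkm, hmu⟩ := exists_uniq hw hca'
  obtain ⟨α, hα⟩ := fr.der hJG
  have hαa : α = ((2 * ((a + a') / 2) : ℚ) : K) := by
    obtain ⟨l0, hl0⟩ := exists_pair nd b kp
    obtain ⟨l1, hl1⟩ := exists_pair nd b km
    have e0 := wt_sum fr hα hJ hl0
    have e1 := wt_sum fr hα hJ hl1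
    have e2 : w kp + w l0 = w km + w l1 := by
      have e3 : ((w kp + w l0 : ℚ) : K) = ((w km + w l1 : ℚ) : K) := by rw [← e0, e1]
      exact_mod_cast e3
    rw [hkp, hkm] at e2
    by_cases h1 : w l0 = a'
    · rw [e0, hkp, h1]
      congr 1
      ring
    · have h2 := hi (w km) (mem_of_map hw km) (by rw [hkm]; exact hne.symm) (w l0)
        (mem_of_map hw l0) h1 (w l1) (mem_of_map hw l1) (by rw [hkm]; linarith)
      rw [e1, hkm, h2]
      congr 1
      ring
  have hDL := ctr_mem fr hJG hα hαa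
  have hD := ctr_b (h := (a + a') / 2) hJ
  have hc : Pair (fun k => w k - (a + a') / 2) kp km := by
    refine ⟨?_, fun k hk => hpu k ?_, fun k hk => hmu k ?_, fun h => hne ?_⟩
    · rw [hkp, hkm]
      ring
    · linarith
    · rw [hkp] at hk
      linarith
    · rw [hkp] at h
      linarith
  refine exists_FulS_small fr sy nd si (small_of_iso hD hc hDL (frL_br fr) (fun A hA => hA.1) sy nd
    (irr_of_SIQ si (frL_conj fr) hD hc hDL) fun k hk l m hlm => ?_)
  by_cases hl : w l = a'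
  · right
    rw [hl, hkp]
    ring
  · left
    have h1 := hi (w k) (mem_of_map hw k) (fun h => hk (hpu k h)) (w l) (mem_of_map hw l) hl (w m)
      (mem_of_map hw m) (by rw [hkp] at hlm; linarith)
    rw [h1, hkp]

/-- The condition for the numbers `3`, `1`, `-1`, `-3`. -/
def CyNum (M : FRep K Γ) : Prop :=
  ∃ q : ℕ, finrank K M.V = 2 * q + 2 ∧ q ∉ ({1, 3, 6, 9, 15, 27} : Finset ℕ) ∧
    (q = 0 ∨ ¬TenRep M.ρ)

/-- **Height one.** -/
theorem exists_FulS_height [IsAlgClosed K] (fr : Frm N t) (sy : ∀ x y, fr.B x y = -fr.B y x)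
    (nd : ∀ x, (∀ y, fr.B x y = 0) → x = 0) (si : SI (N t).ρ)
    {J : ∀ i, (N i).V →ₗ[K] (N i).V} (hJG : J ∈ GG N) {s s' : Multiset ℚ} (hs : HasWt (J t) s)
    {h c : ℚ} (hh : HeightOneAt s s' h c) (hn : (∃ x ∈ s', |x - h| < c) ∨ CyNum (N t)) :
    ∃ o : FulS N t, o.toFrm = fr := by
  classical
  obtain ⟨κ, hκ, b, w, hJ, hw⟩ := hs
  obtain ⟨hc0, hss, hint⟩ := hh
  have hnot : ∀ e : ℚ, (e = 3 ∨ e = -3) → s'.count (h + e * c) = 0 := by
    intro e he
    rw [Multiset.count_eq_zero]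
    intro hm
    have h1 := hint _ hm
    rw [add_sub_cancel_left, abs_le] at h1
    rcases he with rfl | rfl
    · linarith [h1.2]
    · linarith [h1.1]
  have hcp : s.count (h + 3 * c) = 1 := by
    rw [hss, Multiset.count_cons_self, Multiset.count_cons_of_ne (by intro h1; linarith),
      hnot 3 (Or.inl rfl)]
  have hcm : s.count (h - 3 * c) = 1 := by
    rw [hss, Multiset.count_cons_of_ne (by intro h1; linarith), Multiset.count_cons_self,
      show h - 3 * c = h + (-3) * c by ring, hnot (-3) (Or.inr rfl)]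
  obtain ⟨kp, hkp, hpu⟩ := exists_uniq hw hcp
  obtain ⟨km, hkm, hmu⟩ := exists_uniq hw hcm
  have hother : ∀ k, k ≠ kp → k ≠ km → w k ∈ s' := by
    intro k h1 h2
    have h3 := mem_of_map hw k
    rw [hss, Multiset.mem_cons, Multiset.mem_cons] at h3
    rcases h3 with h3 | h3 | h3
    · exact absurd (hpu k h3) h1
    · exact absurd (hmu k h3) h2
    · exact h3
  have hbd : ∀ k, h - 3 * c ≤ w k ∧ w k ≤ h + 3 * c := by
    intro k
    by_cases h1 : k = kp
    · rw [h1, hkp]
      constructor <;> linarith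
    · by_cases h2 : k = km
      · rw [h2, hkm]
        constructor <;> linarith
      · have h3 := abs_le.1 (hint _ (hother k h1 h2))
        constructor <;> linarith [h3.1, h3.2]
  obtain ⟨α, hα⟩ := fr.der hJG
  have hαa : α = ((2 * h : ℚ) : K) := by
    obtain ⟨l0, hl0⟩ := exists_pair nd b kp
    obtain ⟨l1, hl1⟩ := exists_pair nd b km
    have e0 := wt_sum fr hα hJ hl0
    have e1 := wt_sum fr hα hJ hl1
    have e2 : w kp + w l0 = w km + w l1 := by
      have e3 : ((w kp + w l0 : ℚ) : K) = ((w km + w l1 : ℚ) : K) := by rw [← e0, e1]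
      exact_mod_cast e3
    rw [hkp, hkm] at e2
    have h3 : w l0 = h - 3 * c := by
      have h4 := (hbd l0).1
      have h5 := (hbd l1).2
      linarith
    rw [e0, hkp, h3]
    congr 1
    ring
  have hDL := ctr_mem fr hJG hα hαa
  have hD := ctr_b (h := h) hJ
  have hc : Pair (fun k => w k - h) kp km := by
    refine ⟨?_, fun k hk => hpu k ?_, fun k hk => hmu k ?_, fun h1 => ?_⟩
    · rw [hkp, hkm]
      ring
    · rw [hkp] at hk
      linarith
    · rw [hkp] at hk
      linarith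
    · rw [hkp] at h1
      linarith
  by_cases hstr : ∃ x ∈ s', |x - h| < c
  · obtain ⟨x, hx, hxc⟩ := hstr
    have hxs : x ∈ (univ : Finset κ).val.map w := by
      rw [hw, hss]
      exact Multiset.mem_cons_of_mem (Multiset.mem_cons_of_mem hx)
    obtain ⟨k₀, -, hk₀⟩ := Multiset.mem_map.1 hxs
    exact exists_FulS_small fr sy nd si (small_of_height (γ := c) (k₀ := k₀) hD hc0
      (by rw [hkp]; ring) hc (fun k h1 h2 => hint _ (hother k h1 h2)) (by rw [hk₀]; exact hxc) hDL
      (frL_br fr) (fun A hA => hA.1) sy nd (irr_of_SIQ si (frL_conj fr) hD hc hDL))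
  · obtain ⟨q, hdim, hq, hT⟩ := hn.resolve_left hstr
    push Not at hstr
    have hval : ∀ k, k ≠ kp → k ≠ km → w k = h + c ∨ w k = h - c := by
      intro k h1 h2
      have h3 := le_antisymm (hint _ (hother k h1 h2)) (hstr _ (hother k h1 h2))
      rcases abs_eq_abs.1 (h3.trans (abs_of_pos hc0).symm) with h4 | h4
      · left; linarith
      · right; linarith
    let c' : κ → ℤ := fun k => if k = kp then 3 else if k = km then -3 else
      if w k = h + c then 1 else -1
    have hpm : kp ≠ km := by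
      intro h1
      rw [h1, hkm] at hkp
      linarith
    have hc'w : ∀ k, (c' k : ℚ) * c = w k - h := by
      intro k
      simp only [c']
      by_cases h1 : k = kp
      · rw [if_pos h1, h1, hkp]
        push_cast
        ring
      · rw [if_neg h1]
        by_cases h2 : k = km
        · rw [if_pos h2, h2, hkm]
          push_cast
          ring
        · rw [if_neg h2]
          by_cases h3 : w k = h + c
          · rw [if_pos h3, h3]
            push_cast
            ring
          · rw [if_neg h3, (hval k h1 h2).resolve_left h3]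
            push_cast
            ring
    have hcy : CyB c' kp km := by
      refine ⟨fun k => ?_, ?_, ?_, fun k hk => hpu k ?_, fun k hk => hmu k ?_⟩
      · rw [mem_cyS]
        simp only [c']
        by_cases h1 : k = kp
        · simp [h1]
        · by_cases h2 : k = km
          · simp [h2, hpm.symm]
          · by_cases h3 : w k = h + c
            · simp [h1, h2, h3]
            · simp [h1, h2, h3]
      · simp [c']
      · simp [c', hpm.symm]
      · have h1 := hc'w k
        rw [hk] at h1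
        push_cast at h1
        linarith
      · have h1 := hc'w k
        rw [hk] at h1
        push_cast at h1
        linarith
    have hck : ((c : ℚ) : K) ≠ 0 := by exact_mod_cast hc0.ne'
    have hD' : ∀ k, (((c : ℚ) : K)⁻¹ • ctr (J t) h) (b k) = (c' k : K) • b k := by
      intro k
      rw [LinearMap.smul_apply, hD, smul_smul, ← hc'w k]
      congr 1
      push_cast
      rw [mul_comm, mul_assoc, mul_inv_cancel₀ hck, mul_one]
    have hDL' := (frL fr).smul_mem (((c : ℚ) : K)⁻¹) hDL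
    have hall : ∀ x y, oo fr.B (-1) x y ∈ frL fr := by
      intro x y
      exact full_cyA si sy nd hD' hcy hdim hq hT (L := frL fr) hDL'
        (fun A hA A' hA' => frL_br fr A hA A' hA') (fun A hA => hA.1)
        (fun γ A hA => frL_conj fr γ A hA) x y
    exact ⟨⟨fr, sy, nd, si, b kp, b km, form_pm hD' hcy hDL'.1 nd, fun x y => (hall x y).2⟩, rfl⟩

/-- The condition on the weights. -/
def WType (M : FRep K Γ) (s : Multiset ℚ) : Prop :=
  (∃ a a', IsolatedAt s a a') ∨
  ∃ s' h c, HeightOneAt s s' h c ∧ ((∃ x ∈ s', |x - h| < c) ∨ CyNum M)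

theorem exists_FulS_wt [IsAlgClosed K] (fr : Frm N t) (sy : ∀ x y, fr.B x y = -fr.B y x)
    (nd : ∀ x, (∀ y, fr.B x y = 0) → x = 0) (si : SI (N t).ρ)
    {J : ∀ i, (N i).V →ₗ[K] (N i).V} (hJG : J ∈ GG N) {s : Multiset ℚ} (hs : HasWt (J t) s)
    (hn : WType (N t) s) : ∃ o : FulS N t, o.toFrm = fr := by
  rcases hn with ⟨a, a', ha⟩ | ⟨s', h, c, h1, h2⟩
  · exact exists_FulS_iso fr sy nd si hJG hs ha
  · exact exists_FulS_height fr sy nd si hJG hs h1 h2

/-- The elements `g` with `(g - 1) ^ 2 = 0`. -/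
def quad (M : FRep K Γ) : Set Γ := {g | (M.ρ g - 1) * (M.ρ g - 1) = 0}

theorem quad_mem [IsAlgClosed K] (fr : Frm N t) (nd : ∀ x, (∀ y, fr.B x y = 0) → x = 0) {g : Γ}
    (hg : g ∈ quad (N t)) : ((N t).ρ g - 1 : Module.End K (N t).V) ∈ frL fr := by
  obtain ⟨J, hJG, hJ⟩ := exists_GGlog N g
  have hg2 : ((N t).ρ g - 1) ^ 2 = 0 := by rw [pow_two]; exact hg
  have h1 : J t = (N t).ρ g - 1 := by rw [hJ t 2 hg2, lg_two]
  obtain ⟨a, ha⟩ := fr.der hJG
  refine ⟨?_, J, hJG, 0, by rw [h1, zero_smul, add_zero]⟩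
  rw [← h1]
  exact Pool.Agent.Q71.TM.skew_of_nil nd ha (n := 2) (by rw [h1]; exact hg2)

/-- **Unipotent elements.** -/
theorem exists_FulS_quad [IsAlgClosed K] (fr : Frm N t) (sy : ∀ x y, fr.B x y = -fr.B y x)
    (nd : ∀ x, (∀ y, fr.B x y = 0) → x = 0) (si : SI (N t).ρ)
    (h : Pool.Agent.V11219.Gk.SmallDefects (N t).ρ (quad (N t))) :
    ∃ o : FulS N t, o.toFrm = fr := by
  have hsq : ∀ g ∈ quad (N t), ((N t).ρ g - 1) * ((N t).ρ g - 1) = 0 := fun g hg => hg
  have hdef : ∀ g d, Pool.Agent.V11219.Sm.IsDefect (N t).ρ (quad (N t)) g d →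
      Pool.Agent.Y126.OT.Defect (frL fr) ((N t).ρ g - 1) d := by
    rintro g d (h1 | ⟨g', hg', h2, a, ha, h3⟩)
    · exact Or.inl h1
    · exact Or.inr ⟨_, quad_mem fr nd hg', h2, a, ha, h3⟩
  have hcond : Pool.Agent.V11219.Gk.SmallCond (frL fr) (N t).ρ := by
    rcases h with ⟨g, hg, h1⟩ | ⟨⟨g, hg, h1⟩, h2⟩
    · refine Or.inl ⟨_, quad_mem fr nd hg, hsq g hg, ?_⟩
      rcases h1 with h1 | h1
      · left
        intro p hp
        obtain ⟨d, hd, hpd⟩ := h1 p hp
        exact ⟨d, hdef g d hd, hpd⟩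
      · exact Or.inr (hdef g 2 h1)
    · refine Or.inr ⟨_, quad_mem fr nd hg, hsq g hg, fun W hW => h1 W fun h x hx => ?_,
        fun p hp => ?_⟩
      · have h3 := hW h x hx
        have h4 : (N t).ρ (h * g * h⁻¹) x = ((N t).ρ h * ((N t).ρ g - 1) * (N t).ρ h⁻¹) x + x := by
          have h5 : (N t).ρ (h * g * h⁻¹) = (N t).ρ h * ((N t).ρ g - 1) * (N t).ρ h⁻¹ + 1 := by
            have h6 : (N t).ρ h * (N t).ρ h⁻¹ = 1 := by
              rw [← map_mul, mul_inv_cancel, map_one]
            rw [map_mul, map_mul, mul_sub, sub_mul, mul_one, h6, sub_add_cancel]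
          rw [h5, LinearMap.add_apply, Module.End.one_apply]
        rw [h4]
        exact W.add_mem h3 hx
      · obtain ⟨g', hg', d, hd, hpd⟩ := h2 p hp
        exact ⟨_, quad_mem fr nd hg', hsq g' hg', d, hdef g' d hd, hpd⟩
  have hall : ∀ x y, Pool.Agent.H204R3.SP.SS fr.B x y ∈ frL fr := fun x y =>
    Pool.Agent.V11219.Gk.full_of_small (χ := muHom fr) (alt_self sy) nd fr.eqv si (frL_br fr)
      (frL_conj fr) (fun Y hY => hY.1) hcond x y
  obtain ⟨g, hg, hne⟩ : ∃ g ∈ quad (N t), (N t).ρ g - 1 ≠ 0 := by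
    by_contra hcon
    push Not at hcon
    have hz : ∀ g ∈ quad (N t), ∀ d, Pool.Agent.V11219.Sm.IsDefect (N t).ρ (quad (N t)) g d →
        d = 0 := by
      intro g hg d hd
      have h1 := hdef g d hd
      rw [hcon g hg] at h1
      exact Pool.Agent.V11219.Gk.defect_zero h1
    rcases h with ⟨g, hg, h1 | h1⟩ | ⟨-, h2⟩
    · obtain ⟨d, hd, hpd⟩ := h1 2 Nat.prime_two
      rw [hz g hg d hd] at hpd
      exact hpd (dvd_zero 2)
    · exact absurd (hz g hg 2 h1) (by norm_num)
    · obtain ⟨g', hg', d, hd, hpd⟩ := h2 2 Nat.prime_two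
      rw [hz g' hg' d hd] at hpd
      exact hpd (dvd_zero 2)
  obtain ⟨x, hx⟩ : ∃ x, ((N t).ρ g - 1 : Module.End K (N t).V) x ≠ 0 := by
    by_contra hcon
    push Not at hcon
    exact hne (LinearMap.ext hcon)
  obtain ⟨y, hy⟩ : ∃ y, fr.B (((N t).ρ g - 1 : Module.End K (N t).V) x) y ≠ 0 := by
    by_contra hcon
    push Not at hcon
    exact hx (nd _ hcon)
  refine ⟨⟨fr, sy, nd, si, _, y, hy, fun x y => ?_⟩, rfl⟩
  have h1 := hall x y
  rw [SS_eq] at h1
  exact h1.2

end

end Run7.h552.SF
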